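import Mathlib
import Pool.Agent.Lib.P28ip.Code
import Pool.Agent.Lib.P28ip.Luck
import Pool.Agent.Lib.P28ip.Fam

/-!
# General graphs by hidden paths: definitions

The arcs `ℓ : Λ` of a graph with vertices `V` (from `sr ℓ` to `ds ℓ`) are replaced by paths through layers of
permutations of `X`.  The arc `ℓ` has two names `ι (ℓ, false)` and `ι (ℓ, true)` in `X`.  The position `ι (ℓ, false)` of the first
layer is joined to `sr ℓ`, the positions of class `cl y = some q` of the last layer are joined to `q`.  If the arc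
is present the two names are exchanged on the way.
-/

set_option autoImplicit false

namespace P28ng

open P28ip Finset

/-- product of the layers `j, .., K - 1` of `lft w H` -/
def fi {X : Type} (w : ℕ) (H : ℕ → Equiv.Perm X) (K j : ℕ) : Equiv.Perm X :=
  prd (lft w H) K * (prd (lft w H) j)⁻¹

/-- `π` moves the names to the classes they should have if the arcs `z` are present -/
def Fol {X V Λ : Type} (ι : Λ × Bool → X) (cl : X → Option V) (z : Λ → Bool)
    (π : Equiv.Perm X) : Prop :=
  (∀ ℓ b, cl (π (ι (ℓ, b))) = cl (ι (ℓ, xor b (z ℓ)))) ∧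
    ∀ x, (∀ a, ι a ≠ x) → cl (π x) = cl x

/-- the factor in the union bound -/
def Zc (K' ℓ t₀ s w T R : ℕ) : ℕ :=
  (s + t₀) * (K' * ℓ * (ℓ * (ℓ * ((s - 1 + t₀) * ((t₀ + 1) * (w + 1))))) + 1) ^
      (2 * (s - 1 + t₀)) * (2 * R ^ (2 * (s - 1 + t₀)) * T ^ (4 * (s - 1 + t₀)))

/-- number of layers -/
def lyn (t : ℕ) : ℕ → ℕ
  | 0 => 1
  | i + 1 => lyn t i * (2 * t + 1)

end P28ng
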