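import Mathlib
import Pool.Agent.Lib.P28ng.Defs

/-!
# Module P28ng.Cls : the modification preserves the classes of the end positions

PROOF.  `γ = gam w (ext K ω) P.H`, `γ'' = gam w (ext K (mdf w P ω c)) P.H`, `L j = lft w P.H j`, `fi j = fi w P.H K j`, so that `fi (j + 1) * L j = fi j`
(from the definition: `prd L (j+1) = L j * prd L j`) and `fi K = 1`.  `π j = (γ j)⁻¹ * γ'' j`.  CLAIM (induction on `j ≤ K`): `cl (fi j (π j x)) = cl (fi j x)` for all `x`.
`j = 0`: `π 0 = 1`.  Step: with `σ = sw (fun v => γ j v.2) c (list of the v with hid v = j)` the layer `j < K` of `mdf` is `ω j * σ`, so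
`γ'' (j+1) = ω j * σ * γ j * π j * (L j)⁻¹` and `γ (j+1) = ω j * γ j * (L j)⁻¹`, hence `π (j+1) = L j * (γ j)⁻¹ * σ * γ j * π j * (L j)⁻¹` and
`cl (fi (j+1) (π (j+1) x)) = cl (fi j ((γ j)⁻¹ (σ (γ j (π j ((L j)⁻¹ x))))))`.  By `sw_pres` with `φ y = cl (fi j ((γ j)⁻¹ y))` (the hypothesis `hc` says
`φ (γ j v.2) = φ (c v)`) this is `cl (fi j (π j ((L j)⁻¹ x))) = cl (fi j ((L j)⁻¹ x)) = cl (fi (j+1) x)`.
For `j = K`: `cl (π K x) = cl x`, so `cl (γ'' K x) = cl (γ K (π K x)) = cl (π K x) = cl x`.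
`sw_pres`: induction on the list, one transposition exchanges two points with the same value of `φ`.
`fi_out`: `lft w H j` fixes the points outside `Y`.
-/

set_option autoImplicit false

namespace P28ng

open P28ip Finset

variable {X : Type}

theorem sw_pres {κ C : Type} [DecidableEq X] (a c : κ → X) (l : List κ) (φ : X → C)
    (h : ∀ v ∈ l, φ (a v) = φ (c v)) (x : X) : φ (sw a c l x) = φ x := by
  induction l with
  | nil => rfl
  | cons i l ih =>
    have h1 := ih (fun v hv => h v (List.mem_cons_of_mem _ hv))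
    have h2 := h i List.mem_cons_self
    show φ (Equiv.swap (a i) (c i) (sw a c l x)) = φ x
    rw [← h1]
    by_cases e1 : sw a c l x = a i
    · rw [e1, Equiv.swap_apply_left, h2]
    · by_cases e2 : sw a c l x = c i
      · rw [e2, Equiv.swap_apply_right, h2]
      · rw [Equiv.swap_apply_of_ne_of_ne e1 e2]

theorem fi_succ (w : ℕ) (H : ℕ → Equiv.Perm X) (K j : ℕ) :
    fi w H K (j + 1) * lft w H j = fi w H K j := by
  change prd (lft w H) K * (lft w H j * prd (lft w H) j)⁻¹ * lft w H j =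
    prd (lft w H) K * (prd (lft w H) j)⁻¹
  group

theorem ClsAux.prd_out {Y : Finset X} (w : ℕ) {H : ℕ → Equiv.Perm X} (hH : Sup Y H) (j : ℕ)
    {x : X} (hx : x ∉ Y) : prd (lft w H) j x = x := by
  induction j with
  | zero => rfl
  | succ j ih =>
    show lft w H j (prd (lft w H) j x) = x
    rw [ih]
    unfold lft
    split_ifs
    · exact hH _ x hx
    · rfl

theorem ClsAux.ap_inv (q : Equiv.Perm X) (y : X) : q (q⁻¹ y) = y := Equiv.apply_symm_apply q y

theorem fi_out {Y : Finset X} (w : ℕ) {H : ℕ → Equiv.Perm X} (hH : Sup Y H) (K j : ℕ) {x : X}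
    (hx : x ∉ Y) : fi w H K j x = x := by
  show prd (lft w H) K ((prd (lft w H) j)⁻¹ x) = x
  have h1 : (prd (lft w H) j)⁻¹ x = x := by
    rw [Equiv.Perm.inv_eq_iff_eq]
    exact (ClsAux.prd_out w hH j hx).symm
  rw [h1]
  exact ClsAux.prd_out w hH K hx

theorem mdf_cls [DecidableEq X] {C : Type} {w K : ℕ} {P : Pat X} (cl : X → C)
    (ω : Fin K → Equiv.Perm X) (c : ℕ × X → X)
    (hc : ∀ v ∈ P.U, cl (fi w P.H K (hid w P v) v.2) =
      cl (fi w P.H K (hid w P v) ((gam w (ext K ω) P.H (hid w P v)).symm (c v))))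
    (hω : ∀ x, cl (gam w (ext K ω) P.H K x) = cl x) :
    ∀ x, cl (gam w (ext K (mdf w P ω c)) P.H K x) = cl x := by
  have key : ∀ j, j ≤ K → ∀ x, cl (fi w P.H K j ((gam w (ext K ω) P.H j)⁻¹
      (gam w (ext K (mdf w P ω c)) P.H j x))) = cl (fi w P.H K j x) := by
    intro j
    induction j with
    | zero =>
      intro _ x
      rfl
    | succ j ih =>
      intro hj x
      have hjK : j < K := hj
      have ih' := ih hjK.le
      obtain ⟨σ, hσ⟩ : ∃ σ : Equiv.Perm X, σ = sw (fun v : ℕ × X => gam w (ext K ω) P.H j v.2) c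
        ((P.U.filter fun v => hid w P v = j).toList) := ⟨_, rfl⟩
      have e1 : ext K (mdf w P ω c) j = ω ⟨j, hjK⟩ * σ := by
        unfold P28ip.ext
        rw [dif_pos hjK, hσ]
        rfl
      have e2 : ext K ω j = ω ⟨j, hjK⟩ := by
        unfold P28ip.ext
        rw [dif_pos hjK]
      have e3 : gam w (ext K (mdf w P ω c)) P.H (j + 1) =
          ω ⟨j, hjK⟩ * σ * gam w (ext K (mdf w P ω c)) P.H j * (lft w P.H j)⁻¹ := by
        rw [← e1]
        rfl
      have e4 : gam w (ext K ω) P.H (j + 1) =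
          ω ⟨j, hjK⟩ * gam w (ext K ω) P.H j * (lft w P.H j)⁻¹ := by
        rw [← e2]
        rfl
      have e5 : (gam w (ext K ω) P.H (j + 1))⁻¹ * gam w (ext K (mdf w P ω c)) P.H (j + 1) =
          lft w P.H j * ((gam w (ext K ω) P.H j)⁻¹ * (σ *
            (gam w (ext K (mdf w P ω c)) P.H j * (lft w P.H j)⁻¹))) := by
        rw [e3, e4]
        group
      have e6 : (gam w (ext K ω) P.H (j + 1))⁻¹ (gam w (ext K (mdf w P ω c)) P.H (j + 1) x) =
          lft w P.H j ((gam w (ext K ω) P.H j)⁻¹ (σ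
            (gam w (ext K (mdf w P ω c)) P.H j ((lft w P.H j)⁻¹ x)))) :=
        congrArg (fun q : Equiv.Perm X => q x) e5
      have e7 : ∀ y, fi w P.H K (j + 1) (lft w P.H j y) = fi w P.H K j y := fun y =>
        congrArg (fun q : Equiv.Perm X => q y) (fi_succ w P.H K j)
      rw [e6, e7]
      have h1 := sw_pres (fun v : ℕ × X => gam w (ext K ω) P.H j v.2) c
        ((P.U.filter fun v => hid w P v = j).toList)
        (fun y => cl (fi w P.H K j ((gam w (ext K ω) P.H j)⁻¹ y))) (by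
          intro v hv
          rw [Finset.mem_toList, Finset.mem_filter] at hv
          have h2 := hc v hv.1
          rw [hv.2] at h2
          have h3 : (gam w (ext K ω) P.H j)⁻¹ (gam w (ext K ω) P.H j v.2) = v.2 :=
            Equiv.symm_apply_apply _ _
          show cl (fi w P.H K j ((gam w (ext K ω) P.H j)⁻¹ (gam w (ext K ω) P.H j v.2))) = _
          rw [h3]
          exact h2) (gam w (ext K (mdf w P ω c)) P.H j ((lft w P.H j)⁻¹ x))
      rw [← hσ] at h1
      refine h1.trans ?_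
      rw [ih', ← e7, ClsAux.ap_inv]
  intro x
  have h1 := key K le_rfl x
  have h2 : fi w P.H K K = 1 := by
    unfold fi
    exact mul_inv_cancel _
  rw [h2] at h1
  have h3 := hω ((gam w (ext K ω) P.H K)⁻¹ (gam w (ext K (mdf w P ω c)) P.H K x))
  rw [ClsAux.ap_inv] at h3
  rw [h3]
  exact h1

end P28ng
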