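import Mathlib
import Pool.Agent.Lib.P28ng.Defs
import Pool.Agent.Lib.P28ip.Loop
import Pool.Agent.Lib.P28ip.FinNum

/-!
# Module P28ng.FinNumC : the final choice of the parameters

PROOF (as P28ip.FinNum, `final_numbers_ip`).  `E = 7 ee (D + 1) + 10`.  `μ` = the largest natural number with `μ ^ E ≤ n`; `(μ + 1) ^ E > n`; for `n ≥ n₀` it is `≥ 800 ^ (D + 1)`.
`b = min k μ`, `t` = the largest natural number with `(100 t) ^ (D + 1) ≤ b`; `k₀ = 800 ^ (D + 1)` gives `t ≥ 8`.  `100 t ≤ (100 t)^(D+1) ≤ μ`.  `lyn t D = (2 t + 1) ^ D`,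
`3 (2t+1)^D ≤ 3 (3 t)^D ≤ (9 t) ^ (D + 1) ≤ b`; `(3 (2t+1)^D + 2) (8 t) ≤ 5 (3t)^D 8 t ≤ (40 t)^(D+1) ≤ b ≤ k`.
`(100 (t + 1)) ^ (D + 1) > b`, so `t + 1 > b ^ (1/(D+1)) / 100` and, as `t ≥ 8`, `t ≥ b ^ (1/(D+1)) / 200`.  `n < (μ + 1) ^ E ≤ μ ^ (2 E)`, so
`μ ^ (7 t) ≥ n ^ (7 t / (2 E)) ≥ n ^ (7 b ^ (1/(D+1)) / (400 E))` and `b ^ (1/(D+1)) = min (k ^ (1/(D+1))) (μ ^ (1/(D+1))) ≥ min (k ^ (1/(D+1))) (n ^ (1/(2 E (D+1))))`.
Take `c = 1 / (100 E (D + 1))`: `c < 7/(400 E)`, `c ≤ 1/(2 E (D+1))`; the minimum is positive, `n > 1`, so the inequality is strict.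
PROOF of `top_numbers`: `(2t)^(8t) S ≤ μ^(8t) μ^(7t) < μ^(32 t)`; `2^7t...`: `S ≤ μ^(7t) ≤ 2^(7 t μ) ≤ 2^(μ^2) < 4^(μ^2)` (`μ ≤ 2^μ`, `100 t ≤ μ`) and `(8t)^(μ^2) = 4^(μ^2) (2t)^(μ^2)`.
-/

set_option autoImplicit false

namespace P28ng

open P28ip

namespace FinNumCAux

open P28ip.FinNumAux

theorem lyn_eq (t i : ℕ) : lyn t i = (2 * t + 1) ^ i := by
  induction i with
  | zero => simp [lyn]
  | succ i ih =>
    simp only [lyn]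
    rw [ih, pow_succ]

theorem lyn_le (t D : ℕ) (ht : 1 ≤ t) : lyn t D * 3 ≤ (100 * t) ^ (D + 1) := by
  rw [lyn_eq]
  have h1 : 3 ≤ 100 * t := by omega
  have h2 : (2 * t + 1) ^ D ≤ (100 * t) ^ D := Nat.pow_le_pow_left (by omega) D
  calc (2 * t + 1) ^ D * 3 ≤ (100 * t) ^ D * (100 * t) := Nat.mul_le_mul h2 h1
    _ = (100 * t) ^ (D + 1) := by ring

theorem lyn_le' (t D : ℕ) (ht : 1 ≤ t) : (lyn t D * 3 + 2) * (8 * t) ≤ (100 * t) ^ (D + 1) := by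
  rw [lyn_eq]
  have h2 : (2 * t + 1) ^ D ≤ (100 * t) ^ D := Nat.pow_le_pow_left (by omega) D
  have h3 : 1 ≤ (2 * t + 1) ^ D := Nat.one_le_pow _ _ (by omega)
  calc ((2 * t + 1) ^ D * 3 + 2) * (8 * t) ≤ ((2 * t + 1) ^ D * 5) * (8 * t) := by
        refine Nat.mul_le_mul_right _ ?_
        omega
    _ = (2 * t + 1) ^ D * (40 * t) := by ring
    _ ≤ (100 * t) ^ D * (100 * t) := Nat.mul_le_mul h2 (by omega)
    _ = (100 * t) ^ (D + 1) := by ring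

end FinNumCAux

open FinNumCAux P28ip.FinNumAux in
theorem final_numbers_ng (D : ℕ) : ∃ c : ℝ, 0 < c ∧ ∃ k₀ n₀ : ℕ, ∀ n ≥ n₀, ∀ k ≥ k₀,
    ∃ μ t : ℕ, 8 ≤ t ∧ 100 * t ≤ μ ∧ lyn t D * 3 ≤ μ ∧ (lyn t D * 3 + 2) * (8 * t) ≤ k ∧
      μ ^ (7 * ee (D + 1) + 10) ≤ n ∧
      (n : ℝ) ^ (c * min ((k : ℝ) ^ (1 / ((D : ℝ) + 1))) ((n : ℝ) ^ c)) <
        ((μ ^ (7 * t) : ℕ) : ℝ) := by
  obtain ⟨E, hE⟩ : ∃ E : ℕ, E = 7 * ee (D + 1) + 10 := ⟨_, rfl⟩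
  have hE2 : 2 ≤ E := by omega
  have hER : (0 : ℝ) < (E : ℝ) := by
    have : 0 < E := by omega
    exact_mod_cast this
  have hDR : (0 : ℝ) < (D : ℝ) + 1 := by positivity
  have hD1 : (1 : ℝ) ≤ (D : ℝ) + 1 := by
    have : (0 : ℝ) ≤ (D : ℝ) := by positivity
    linarith
  refine ⟨1 / (100 * E * ((D : ℝ) + 1)), by positivity, 800 ^ (D + 1),
    (1000 + 800 ^ (D + 1)) ^ E, ?_⟩
  intro n hn k hk
  obtain ⟨η, hη1, hη2⟩ := exists_root 1 E n le_rfl (by omega)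
  rw [one_mul] at hη1 hη2
  have hηb : 1000 + 800 ^ (D + 1) ≤ η := by
    by_contra hcon
    have h1 : η + 1 ≤ 1000 + 800 ^ (D + 1) := by omega
    have h2 : (η + 1) ^ E ≤ (1000 + 800 ^ (D + 1)) ^ E := Nat.pow_le_pow_left h1 E
    omega
  have hη1000 : 1000 ≤ η := (Nat.le_add_right _ _).trans hηb
  have hη72 : 800 ^ (D + 1) ≤ η := (Nat.le_add_left _ _).trans hηb
  obtain ⟨b, hb⟩ : ∃ b : ℕ, b = min k η := ⟨_, rfl⟩
  have hbk : b ≤ k := by rw [hb]; exact min_le_left _ _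
  have hbη : b ≤ η := by rw [hb]; exact min_le_right _ _
  have hb72 : 800 ^ (D + 1) ≤ b := by
    rw [hb]
    exact le_min hk hη72
  obtain ⟨t, ht1, ht2⟩ := exists_root 100 (D + 1) b (by norm_num) (by omega)
  have ht8 : 8 ≤ t := by
    by_contra hcon
    have h1 : 100 * (t + 1) ≤ 800 := by omega
    have h2 : (100 * (t + 1)) ^ (D + 1) ≤ 800 ^ (D + 1) := Nat.pow_le_pow_left h1 _
    omega
  have h100 : 100 * t ≤ b := by
    have : 100 * t ≤ (100 * t) ^ (D + 1) := Nat.le_self_pow (by omega) _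
    omega
  have hlay : lyn t D * 3 ≤ b := (lyn_le t D (by omega)).trans ht1
  have hlay' : (lyn t D * 3 + 2) * (8 * t) ≤ b := (lyn_le' t D (by omega)).trans ht1
  refine ⟨η, t, ht8, h100.trans hbη, hlay.trans hbη, hlay'.trans hbk, ?_, ?_⟩
  · rw [← hE]; exact hη1
  · -- the exponent
    have hηR : (1 : ℝ) < (η : ℝ) := by
      have : 1 < η := by omega
      exact_mod_cast this
    have hn0 : (0 : ℝ) ≤ (n : ℝ) := by positivity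
    have hnη : (n : ℝ) ≤ (η : ℝ) ^ ((2 : ℝ) * E) := by
      have h1 : n ≤ η ^ (2 * E) := by
        calc n ≤ (η + 1) ^ E := hη2.le
          _ ≤ (η ^ 2) ^ E := Nat.pow_le_pow_left (by nlinarith) E
          _ = η ^ (2 * E) := by rw [← pow_mul]
      have h2 : (n : ℝ) ≤ (η : ℝ) ^ (2 * E) := by exact_mod_cast h1
      rw [← Real.rpow_natCast] at h2
      push_cast at h2
      exact h2
    obtain ⟨c, hc⟩ : ∃ c : ℝ, c = 1 / (100 * E * ((D : ℝ) + 1)) := ⟨_, rfl⟩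
    have hc0 : 0 < c := by rw [hc]; positivity
    rw [← hc]
    obtain ⟨m, hm⟩ : ∃ m : ℝ, m = min ((k : ℝ) ^ (1 / ((D : ℝ) + 1))) ((n : ℝ) ^ c) := ⟨_, rfl⟩
    rw [← hm]
    have hm0 : 0 ≤ m := by
      rw [hm]
      exact le_min (Real.rpow_nonneg (by positivity) _) (Real.rpow_nonneg hn0 _)
    have hEc : 2 * (E : ℝ) * c = 1 / (50 * ((D : ℝ) + 1)) := by
      rw [hc]
      field_simp
      norm_num
    have hmb : m ≤ (b : ℝ) ^ (1 / ((D : ℝ) + 1)) := by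
      rcases le_total k η with h | h
      · rw [hb, min_eq_left h, hm]
        exact min_le_left _ _
      · rw [hb, min_eq_right h, hm]
        refine (min_le_right _ _).trans ?_
        calc (n : ℝ) ^ c ≤ ((η : ℝ) ^ ((2 : ℝ) * E)) ^ c :=
              Real.rpow_le_rpow hn0 hnη hc0.le
          _ = (η : ℝ) ^ ((2 : ℝ) * E * c) := by rw [← Real.rpow_mul (by positivity)]
          _ ≤ (η : ℝ) ^ (1 / ((D : ℝ) + 1)) := by
              refine Real.rpow_le_rpow_of_exponent_le hηR.le ?_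
              rw [hEc]
              apply one_div_le_one_div_of_le hDR
              linarith
    have hbt : (b : ℝ) ^ (1 / ((D : ℝ) + 1)) ≤ 200 * (t : ℝ) := by
      have h1 : (b : ℝ) ≤ (100 * ((t : ℝ) + 1)) ^ (D + 1) := by
        have := ht2.le
        exact_mod_cast this
      have h2 : ((100 * ((t : ℝ) + 1)) ^ (D + 1)) ^ (1 / ((D : ℝ) + 1)) = 100 * ((t : ℝ) + 1) := by
        rw [← Real.rpow_natCast, ← Real.rpow_mul (by positivity)]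
        have h3 : ((D + 1 : ℕ) : ℝ) * (1 / ((D : ℝ) + 1)) = 1 := by
          push_cast
          field_simp
        rw [h3, Real.rpow_one]
      have h4 : (b : ℝ) ^ (1 / ((D : ℝ) + 1)) ≤ 100 * ((t : ℝ) + 1) := by
        rw [← h2]
        exact Real.rpow_le_rpow (by positivity) h1 (by positivity)
      have h5 : (8 : ℝ) ≤ (t : ℝ) := by exact_mod_cast ht8
      linarith
    have htR : (8 : ℝ) ≤ (t : ℝ) := by exact_mod_cast ht8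
    have hkey : 2 * (E : ℝ) * (c * m) < 7 * (t : ℝ) := by
      have h1 : 2 * (E : ℝ) * (c * m) = (2 * (E : ℝ) * c) * m := by ring
      have h2 : 2 * (E : ℝ) * c ≤ 1 / 50 := by
        rw [hEc]
        apply one_div_le_one_div_of_le (by norm_num)
        linarith
      have h3 : (2 * (E : ℝ) * c) * m ≤ 1 / 50 * m := mul_le_mul_of_nonneg_right h2 hm0
      rw [h1]
      linarith
    calc (n : ℝ) ^ (c * m) ≤ ((η : ℝ) ^ ((2 : ℝ) * E)) ^ (c * m) :=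
          Real.rpow_le_rpow hn0 hnη (by positivity)
      _ = (η : ℝ) ^ ((2 : ℝ) * E * (c * m)) := by rw [← Real.rpow_mul (by positivity)]
      _ < (η : ℝ) ^ (7 * (t : ℝ)) := Real.rpow_lt_rpow_of_exponent_lt hηR hkey
      _ = ((η ^ (7 * t) : ℕ) : ℝ) := by
          rw [show 7 * (t : ℝ) = ((7 * t : ℕ) : ℝ) by push_cast; ring, Real.rpow_natCast]
          push_cast; rfl

theorem top_numbers {μ t S : ℕ} (ht : 8 ≤ t) (hμ : 100 * t ≤ μ) (hS : S ≤ μ ^ (7 * t)) :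
    (2 * t) ^ (8 * t) * S < (μ ^ 4) ^ (8 * t) ∧
    (2 * t) ^ (μ ^ 2) * S < (8 * t) ^ (μ ^ 2) ∧ t < μ ^ 2 ∧
    2 * (μ ^ 2 * (8 * t) * μ ^ 4) ≤ μ ^ 7 ∧ μ ^ 2 * (8 * t) + 2 ≤ μ ^ 7 := by
  have hμ1 : 1 < μ := by omega
  have hμ2 : 1 ≤ μ ^ 2 := Nat.one_le_pow _ _ (by omega)
  refine ⟨?_, ?_, ?_, ?_, ?_⟩
  · calc (2 * t) ^ (8 * t) * S ≤ μ ^ (8 * t) * μ ^ (7 * t) :=
          Nat.mul_le_mul (Nat.pow_le_pow_left (by omega) _) hS
      _ = μ ^ (15 * t) := by rw [← pow_add]; congr 1; ring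
      _ < μ ^ (4 * (8 * t)) := Nat.pow_lt_pow_right hμ1 (by omega)
      _ = (μ ^ 4) ^ (8 * t) := by rw [← pow_mul]
  · have h1 : S < 4 ^ (μ ^ 2) := by
      calc S ≤ μ ^ (7 * t) := hS
        _ ≤ (2 ^ μ) ^ (7 * t) := Nat.pow_le_pow_left (Nat.lt_two_pow_self).le _
        _ = 2 ^ (μ * (7 * t)) := by rw [← pow_mul]
        _ ≤ 2 ^ (μ ^ 2) := Nat.pow_le_pow_right (by norm_num) (by nlinarith)
        _ < 4 ^ (μ ^ 2) := Nat.pow_lt_pow_left (by norm_num) (by omega)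
    have h2 : 0 < (2 * t) ^ (μ ^ 2) := Nat.pow_pos (by omega)
    calc (2 * t) ^ (μ ^ 2) * S < (2 * t) ^ (μ ^ 2) * 4 ^ (μ ^ 2) := Nat.mul_lt_mul_of_pos_left h1 h2
      _ = (8 * t) ^ (μ ^ 2) := by rw [← mul_pow]; congr 1; ring
  · nlinarith
  · have h6 : 0 < μ ^ 6 := Nat.pow_pos (by omega)
    calc 2 * (μ ^ 2 * (8 * t) * μ ^ 4) = (16 * t) * μ ^ 6 := by ring
      _ ≤ μ * μ ^ 6 := Nat.mul_le_mul_right _ (by omega)
      _ = μ ^ 7 := by ring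
  · have h3 : μ ^ 2 * (8 * t) ≤ μ ^ 3 := by
      calc μ ^ 2 * (8 * t) ≤ μ ^ 2 * μ := Nat.mul_le_mul_left _ (by omega)
        _ = μ ^ 3 := by ring
    have h4 : μ ^ 3 + 2 ≤ μ ^ 7 := by
      have h5 : 2 ≤ μ ^ 3 := by
        calc 2 ≤ μ := by omega
          _ ≤ μ ^ 3 := Nat.le_self_pow (by norm_num) _
      have h6 : 2 ≤ μ ^ 4 := by
        calc 2 ≤ μ := by omega
          _ ≤ μ ^ 4 := Nat.le_self_pow (by norm_num) _
      calc μ ^ 3 + 2 ≤ μ ^ 3 * 2 := by omega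
        _ ≤ μ ^ 3 * μ ^ 4 := Nat.mul_le_mul_left _ h6
        _ = μ ^ 7 := by ring
    omega

theorem size_numbers {μ t e L : ℕ} (ht : 8 ≤ t) (hμ : 100 * t ≤ μ) (hL : L ≤ μ) {a b : ℕ}
    (ha : 2 * a ≤ μ ^ 7) (hb : b + 1 ≤ μ ^ 7) :
    b + (L + 1) * (2 * a + (b + 1) * (μ ^ 7) ^ e) ≤ μ ^ (7 * e + 10) := by
  have hμ1 : 5 ≤ μ := by omega
  have he1 : 1 ≤ (μ ^ 7) ^ e := Nat.one_le_pow _ _ (Nat.pow_pos (by omega))
  have h1 : 2 * a + (b + 1) * (μ ^ 7) ^ e ≤ 2 * (μ ^ 7 * (μ ^ 7) ^ e) := by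
    have h2 : 2 * a ≤ μ ^ 7 * (μ ^ 7) ^ e := by
      calc 2 * a ≤ μ ^ 7 * 1 := by omega
        _ ≤ μ ^ 7 * (μ ^ 7) ^ e := Nat.mul_le_mul_left _ he1
    have h3 : (b + 1) * (μ ^ 7) ^ e ≤ μ ^ 7 * (μ ^ 7) ^ e := Nat.mul_le_mul_right _ hb
    omega
  have h4 : b ≤ μ ^ 7 * (μ ^ 7) ^ e := by
    calc b ≤ μ ^ 7 * 1 := by omega
      _ ≤ μ ^ 7 * (μ ^ 7) ^ e := Nat.mul_le_mul_left _ he1
  calc b + (L + 1) * (2 * a + (b + 1) * (μ ^ 7) ^ e)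
      ≤ μ ^ 7 * (μ ^ 7) ^ e + (μ + 1) * (2 * (μ ^ 7 * (μ ^ 7) ^ e)) :=
        Nat.add_le_add h4 (Nat.mul_le_mul (by omega) h1)
    _ = (2 * μ + 3) * (μ ^ 7 * (μ ^ 7) ^ e) := by ring
    _ ≤ μ ^ 3 * (μ ^ 7 * (μ ^ 7) ^ e) := by
        refine Nat.mul_le_mul_right _ ?_
        nlinarith [Nat.mul_le_mul hμ1 hμ1, Nat.mul_le_mul (Nat.mul_le_mul hμ1 hμ1) hμ1]
    _ = μ ^ (7 * e + 10) := by
        rw [← pow_mul, ← pow_add, ← pow_add]; congr 1; ring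

end P28ng
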