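import Mathlib
import Pool.Agent.Lib.P28ng.Defs
import Pool.Agent.Lib.P28cd.GDefs

/-!
# Module P28ng.GraC : the graph of a configuration

PROOF.  `W = V ⊕ (Fin (K + 1) × X)`, `ψ : W → Fin n` injective with `ψ (inl s₀) = s`, `ψ (inl t₀) = t` (`card W ≤ n`; compose an injection with two transpositions, as
in P28ip.Gra, `GraAux.exists_emb`).  Directed arcs of `ω`: `inl (sr ℓ) → inr (0, ι (ℓ, false))`; `inr (j, x) → inr (j + 1, ω j x)` for `j < K`; `inr (K, y) → inl q` if `cl y = some q`.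
`Es ω v w = true` iff there is an arc between the preimages of `v` and `w` in one of the two directions.  Symmetric, no loops (every arc changes the side or the layer).
For fixed `v w`: constant, unless `v = ψ (inr (j, x))`, `w = ψ (inr (j + 1, y))` or the other way round, and then it is `decide (ω j x = y)`, certified by the arc
`(j, x, ω j x)`, `j < K` (a constant function has the empty certificate); `K ≥ 1`.
WALK: for an arc `ℓ` with `z ℓ = true`: `sr ℓ`, `(0, ι (ℓ, false))`, `(1, ..)`, .., `(K, prd ω K (ι (ℓ, false)))`, whose class is `cl (ι (ℓ, xor false true)) = some (ds ℓ)`, `ds ℓ`: this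
has `K + 2` arcs; concatenate (`i = (K + 2) a + b`: vertex number `b` of the `a`-th piece).
NO WALK: extend `φ` to `W`: `Φ (inl q) = φ q`; for `(j, x)` let `x₀ = (prd ω j)⁻¹ x`; if `x₀ = ι (ℓ, false)` put `Φ = φ (sr ℓ)`; otherwise, if `cl (prd ω K x₀) = some q` put `Φ = φ q`, else `Φ = true`.
Both ends of every arc have the same label: `(j, x) → (j + 1, ω j x)` have the same `x₀`; `inr (K, y) → q`, `cl y = some q`, `y = prd ω K x₀`: if `x₀ = ι (ℓ, false)` then
`cl y = cl (ι (ℓ, z ℓ))` is `none` if `z ℓ = false` (impossible) and `some (ds ℓ)` if `z ℓ = true`, and `φ (ds ℓ) = φ (sr ℓ)`.  A walk from `s` stays in the label `true`.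
-/

set_option autoImplicit false

namespace P28ng

open P28ip Finset

namespace GraCAux

theorem exists_emb {V X : Type} [Fintype V] [Fintype X] {K n : ℕ}
    (hn : Fintype.card V + (K + 1) * Fintype.card X ≤ n) (s t : Fin n) (hst : s ≠ t)
    (s₀ t₀ : V) (hst₀ : s₀ ≠ t₀) :
    ∃ (α : V → Fin n) (φ : ℕ → X → Fin n), Function.Injective α ∧
      (∀ j ≤ K, ∀ j' ≤ K, ∀ x x', φ j x = φ j' x' → j = j' ∧ x = x') ∧
      (∀ q j x, α q ≠ φ j x) ∧ α s₀ = s ∧ α t₀ = t := by
  classical
  have hc : Fintype.card (V ⊕ (Fin (K + 1) × X)) ≤ Fintype.card (Fin n) := by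
    rw [Fintype.card_sum, Fintype.card_prod, Fintype.card_fin, Fintype.card_fin]
    exact hn
  obtain ⟨ι⟩ := Function.Embedding.nonempty_of_card_le hc
  have hab : ι (Sum.inl s₀) ≠ ι (Sum.inl t₀) := by
    intro h
    exact hst₀ (Sum.inl_injective (ι.injective h))
  obtain ⟨σ, hs, ht⟩ : ∃ σ : Equiv.Perm (Fin n), σ (ι (Sum.inl s₀)) = s ∧ σ (ι (Sum.inl t₀)) = t := by
    refine ⟨(Equiv.swap (Equiv.swap (ι (Sum.inl s₀)) s (ι (Sum.inl t₀))) t) *
      Equiv.swap (ι (Sum.inl s₀)) s, ?_, ?_⟩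
    · rw [Equiv.Perm.mul_apply, Equiv.swap_apply_left]
      refine Equiv.swap_apply_of_ne_of_ne ?_ hst
      intro h
      have h1 : Equiv.swap (ι (Sum.inl s₀)) s (ι (Sum.inl s₀)) =
          Equiv.swap (ι (Sum.inl s₀)) s (ι (Sum.inl t₀)) := by
        rw [Equiv.swap_apply_left]
        exact h
      exact hab ((Equiv.swap (ι (Sum.inl s₀)) s).injective h1)
    · rw [Equiv.Perm.mul_apply, Equiv.swap_apply_left]
  refine ⟨fun q => σ (ι (Sum.inl q)), fun j x => σ (ι (Sum.inr (⟨min j K, by omega⟩, x))),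
    ?_, ?_, ?_, hs, ht⟩
  · intro q q' h
    exact Sum.inl_injective (ι.injective (σ.injective h))
  · intro j hj j' hj' x x' h
    have h1 := Sum.inr_injective (ι.injective (σ.injective h))
    refine ⟨?_, congrArg Prod.snd h1⟩
    have h2 := congrArg Fin.val (congrArg Prod.fst h1)
    simp only at h2
    omega
  · intro q j x h
    have h1 := ι.injective (σ.injective h)
    exact absurd h1 Sum.inl_ne_inr

theorem walk_trans {n : ℕ} {E : Fin n → Fin n → Bool} {k k' : ℕ} {a b c : Fin n}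
    (h : P28cd.Walk E k a b) (h' : P28cd.Walk E k' b c) : P28cd.Walk E (k + k') a c := by
  obtain ⟨i, hi, p, hp0, hpi, hp⟩ := h
  obtain ⟨i', hi', p', hp0', hpi', hp'⟩ := h'
  refine ⟨i + i', by omega, fun j => if j ≤ i then p j else p' (j - i), ?_, ?_, ?_⟩
  · simp only [Nat.zero_le, if_true]
    exact hp0
  · by_cases h0 : i' = 0
    · subst h0
      simp only [Nat.add_zero, le_refl, if_true]
      rw [hpi, ← hp0']
      exact hpi'
    · have h1 : ¬ (i + i' ≤ i) := by omega
      simp only [h1, if_false]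
      rw [Nat.add_sub_cancel_left]
      exact hpi'
  · intro j hj
    by_cases h1 : j + 1 ≤ i
    · have h2 : j ≤ i := by omega
      simp only [h1, h2, if_true]
      exact hp j (by omega)
    · by_cases h2 : j ≤ i
      · have h3 : j = i := by omega
        subst h3
        simp only [h1, le_refl, if_true, if_false]
        rw [Nat.add_sub_cancel_left, hpi, ← hp0']
        exact hp' 0 (by omega)
      · simp only [h1, h2, if_false]
        have h3 : j + 1 - i = (j - i) + 1 := by omega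
        rw [h3]
        exact hp' (j - i) (by omega)

end GraCAux

theorem graph_cls {X V Λ : Type} [Fintype X] [DecidableEq X] [Fintype V] {K n : ℕ} (hK : 1 ≤ K)
    {sr ds : Λ → V} {ι : Λ × Bool → X} (hι : Function.Injective ι) {cl : X → Option V}
    (hoff : ∀ ℓ, cl (ι (ℓ, false)) = none) (hon : ∀ ℓ, cl (ι (ℓ, true)) = some (ds ℓ))
    (hn : Fintype.card V + (K + 1) * Fintype.card X ≤ n) (s t : Fin n) (hst : s ≠ t)
    (s₀ t₀ : V) (hst₀ : s₀ ≠ t₀) :
    ∃ Es : (ℕ → Equiv.Perm X) → Fin n → Fin n → Bool,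
      (∀ v w, CertP K 1 (fun ω => Es ω v w)) ∧ (∀ ω v, Es ω v v = false) ∧
      (∀ ω v w, Es ω v w = Es ω w v) ∧
      (∀ z ω L, Fol ι cl z (prd ω K) → (∃ p : ℕ → V, p 0 = s₀ ∧ p L = t₀ ∧
          ∀ i < L, ∃ ℓ, z ℓ = true ∧ p i = sr ℓ ∧ p (i + 1) = ds ℓ) →
        P28cd.Walk (Es ω) ((K + 2) * L) s t) ∧
      ∀ z ω, Fol ι cl z (prd ω K) → (∃ φ : V → Bool, φ s₀ = true ∧ φ t₀ = false ∧
          ∀ ℓ, z ℓ = true → φ (sr ℓ) = φ (ds ℓ)) → ∀ k, ¬ P28cd.Walk (Es ω) k s t := by
  classical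
  obtain ⟨α, φ, hα, hφ, hαφ, hαs, hαt⟩ := GraCAux.exists_emb hn s t hst s₀ t₀ hst₀
  obtain ⟨C, hC⟩ : ∃ C : Fin n → Fin n → Prop, ∀ v w, C v w ↔
      ((∃ ℓ, v = α (sr ℓ) ∧ w = φ 0 (ι (ℓ, false))) ∨
        ∃ y q, cl y = some q ∧ v = φ K y ∧ w = α q) := ⟨_, fun v w => Iff.rfl⟩
  obtain ⟨B, hB⟩ : ∃ B : (ℕ → Equiv.Perm X) → Fin n → Fin n → Prop, ∀ ω v w, B ω v w ↔
      ∃ j, j < K ∧ ∃ x, v = φ j x ∧ w = φ (j + 1) (ω j x) := ⟨_, fun ω v w => Iff.rfl⟩
  obtain ⟨Es, hEs⟩ : ∃ Es : (ℕ → Equiv.Perm X) → Fin n → Fin n → Bool, ∀ ω v w,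
      (Es ω v w = true ↔ ((C v w ∨ B ω v w) ∨ (C w v ∨ B ω w v))) :=
    ⟨fun ω v w => decide ((C v w ∨ B ω v w) ∨ (C w v ∨ B ω w v)),
      fun ω v w => by simp only [decide_eq_true_eq]⟩
  have hBval : ∀ ω v w j x, j < K → v = φ j x → (B ω v w ↔ w = φ (j + 1) (ω j x)) := by
    intro ω v w j x hj hv
    rw [hB]
    constructor
    · rintro ⟨j', hj', x', hv', hw'⟩
      obtain ⟨h1, h2⟩ := hφ j hj.le j' hj'.le x x' (hv.symm.trans hv')
      subst h1
      subst h2
      exact hw'
    · intro hw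
      exact ⟨j, hj, x, hv, hw⟩
  have hBcert : ∀ v w, ∀ ω : ℕ → Equiv.Perm X, ∃ κ : Finset (Arc X), κ.card ≤ 1 ∧
      (∀ e ∈ κ, e.1 < K) ∧ Hold κ (fn ω) ∧ ∀ ω', Hold κ (fn ω') → (B ω' v w ↔ B ω v w) := by
    intro v w ω
    by_cases h : ∃ j, j < K ∧ ∃ x y, v = φ j x ∧ w = φ (j + 1) y
    · obtain ⟨j, hj, x, y, hv, hw⟩ := h
      refine ⟨{(j, x, ω j x)}, by simp, ?_, ?_, ?_⟩
      · intro e he
        rw [Finset.mem_singleton] at he
        rw [he]
        exact hj
      · intro e he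
        rw [Finset.mem_singleton] at he
        rw [he]
        rfl
      · intro ω' h'
        have h1 : ω' j x = ω j x := h' (j, x, ω j x) (Finset.mem_singleton_self _)
        have h2 := hBval ω v w j x hj hv
        have h3 := hBval ω' v w j x hj hv
        rw [h1] at h3
        exact h3.trans h2.symm
    · refine ⟨∅, by simp, by simp, fun e he => absurd he (Finset.notMem_empty e), ?_⟩
      intro ω' _
      have h1 : ∀ ω, ¬ B ω v w := by
        intro ω h2
        obtain ⟨j, hj, x, hv, hw⟩ := (hB ω v w).1 h2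
        exact h ⟨j, hj, x, ω j x, hv, hw⟩
      exact iff_of_false (h1 ω') (h1 ω)
  have hBno : ∀ v w, (∃ j, j < K ∧ ∃ x y, v = φ j x ∧ w = φ (j + 1) y) → ∀ ω, ¬ B ω w v := by
    rintro v w ⟨j, hj, x, y, hv, hw⟩ ω h2
    obtain ⟨j', hj', x', hw', hv'⟩ := (hB ω w v).1 h2
    have h3 := (hφ _ (by omega) _ (by omega) _ _ (hv.symm.trans hv')).1
    have h4 := (hφ _ (by omega) _ (by omega) _ _ (hw.symm.trans hw')).1
    omega
  refine ⟨Es, ?_, ?_, ?_, ?_, ?_⟩
  · intro v w ω
    by_cases h : ∃ j, j < K ∧ ∃ x y, v = φ j x ∧ w = φ (j + 1) y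
    · obtain ⟨κ, h1, h2, h3, h4⟩ := hBcert v w ω
      refine ⟨κ, h1, h2, h3, fun ω' h' => ?_⟩
      refine Bool.eq_iff_iff.2 ?_
      rw [hEs, hEs]
      have h5 := hBno v w h ω
      have h6 := hBno v w h ω'
      have h7 := h4 ω' h'
      tauto
    · obtain ⟨κ, h1, h2, h3, h4⟩ := hBcert w v ω
      refine ⟨κ, h1, h2, h3, fun ω' h' => ?_⟩
      refine Bool.eq_iff_iff.2 ?_
      rw [hEs, hEs]
      have h5 : ∀ ω, ¬ B ω v w := by
        intro ω h2
        obtain ⟨j, hj, x, hv, hw⟩ := (hB ω v w).1 h2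
        exact h ⟨j, hj, x, ω j x, hv, hw⟩
      have h6 := h5 ω
      have h8 := h5 ω'
      have h7 := h4 ω' h'
      tauto
  · intro ω v
    rw [Bool.eq_false_iff]
    intro h
    have h1 : C v v ∨ B ω v v := by
      have h2 := (hEs ω v v).1 h
      tauto
    rcases h1 with h1 | h1
    · rcases (hC v v).1 h1 with ⟨ℓ, h2, h3⟩ | ⟨y, q, _, h2, h3⟩
      · exact hαφ _ _ _ (h2.symm.trans h3)
      · exact hαφ _ _ _ (h3.symm.trans h2)
    · obtain ⟨j, hj, x, h2, h3⟩ := (hB ω v v).1 h1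
      have h4 := (hφ _ (by omega) _ (by omega) _ _ (h2.symm.trans h3)).1
      omega
  · intro ω v w
    refine Bool.eq_iff_iff.2 ?_
    rw [hEs, hEs]
    tauto
  · rintro z ω L hF ⟨p, hp0, hpL, hp⟩
    have hstep : ∀ ℓ, z ℓ = true → P28cd.Walk (Es ω) (K + 2) (α (sr ℓ)) (α (ds ℓ)) := by
      intro ℓ hz
      refine ⟨K + 2, le_rfl, fun b => if b = 0 then α (sr ℓ) else if b ≤ K + 1 then
        φ (b - 1) (prd ω (b - 1) (ι (ℓ, false))) else α (ds ℓ), ?_, ?_, ?_⟩
      · simp
      · simp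
      · intro b hb
        simp only
        rw [hEs]
        left
        by_cases h0 : b = 0
        · subst h0
          have h1 : (0 : ℕ) + 1 ≤ K + 1 := by omega
          rw [if_pos rfl, if_neg (by omega), if_pos h1]
          left
          rw [hC]
          left
          exact ⟨ℓ, rfl, rfl⟩
        · rw [if_neg h0, if_pos (by omega : b ≤ K + 1), if_neg (by omega)]
          by_cases h1 : b + 1 ≤ K + 1
          · rw [if_pos h1]
            right
            rw [hB]
            refine ⟨b - 1, by omega, prd ω (b - 1) (ι (ℓ, false)), rfl, ?_⟩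
            have h2 : b + 1 - 1 = (b - 1) + 1 := by omega
            rw [h2]
            rfl
          · rw [if_neg h1]
            left
            rw [hC]
            right
            have h2 : b - 1 = K := by omega
            rw [h2]
            refine ⟨prd ω K (ι (ℓ, false)), ds ℓ, ?_, rfl, rfl⟩
            rw [hF.1 ℓ false, hz]
            exact hon ℓ
    have hall : ∀ i, i ≤ L → P28cd.Walk (Es ω) ((K + 2) * i) s (α (p i)) := by
      intro i
      induction i with
      | zero =>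
        intro _
        refine ⟨0, Nat.zero_le _, fun _ => s, rfl, ?_, fun i hi => absurd hi (Nat.not_lt_zero i)⟩
        rw [hp0, hαs]
      | succ i ih =>
        intro hi
        obtain ⟨ℓ, hz, h1, h2⟩ := hp i (by omega)
        have h3 := hstep ℓ hz
        rw [← h1, ← h2] at h3
        have h4 := GraCAux.walk_trans (ih (by omega)) h3
        rw [Nat.mul_succ]
        exact h4
    have h5 := hall L le_rfl
    rw [hpL, hαt] at h5
    exact h5
  · rintro z ω hF ⟨lb, hlbs, hlbt, hlb⟩ k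
    obtain ⟨la, hla1, hla2⟩ : ∃ la : X → Bool, (∀ ℓ, la (ι (ℓ, false)) = lb (sr ℓ)) ∧
        ∀ x₀ q, cl (prd ω K x₀) = some q → la x₀ = lb q := by
      refine ⟨fun x₀ => if h : ∃ ℓ, ι (ℓ, false) = x₀ then lb (sr h.choose) else
        (cl (prd ω K x₀)).elim true lb, ?_, ?_⟩
      · intro ℓ
        have h : ∃ ℓ', ι (ℓ', false) = ι (ℓ, false) := ⟨ℓ, rfl⟩
        simp only
        rw [dif_pos h]
        have h1 := congrArg Prod.fst (hι h.choose_spec)
        simp only at h1
        rw [h1]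
      · intro x₀ q hq
        simp only
        by_cases h : ∃ ℓ, ι (ℓ, false) = x₀
        · rw [dif_pos h]
          obtain ⟨ℓ, hℓ⟩ : ∃ ℓ, h.choose = ℓ := ⟨_, rfl⟩
          have h1 := h.choose_spec
          rw [hℓ] at h1 ⊢
          rw [← h1, hF.1 ℓ false] at hq
          cases hz : z ℓ with
          | false =>
            rw [hz] at hq
            have h2 : cl (ι (ℓ, false)) = some q := hq
            rw [hoff ℓ] at h2
            exact absurd h2 (by simp)
          | true =>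
            rw [hz] at hq
            have h2 : cl (ι (ℓ, true)) = some q := hq
            rw [hon ℓ] at h2
            have h3 : ds ℓ = q := Option.some.inj h2
            rw [← h3]
            exact hlb ℓ hz
        · rw [dif_neg h, hq]
          rfl
    obtain ⟨T, hT⟩ : ∃ T : Fin n → Prop, ∀ v, T v ↔ ((∃ q, v = α q ∧ lb q = true) ∨
        ∃ j, j ≤ K ∧ ∃ x₀, v = φ j (prd ω j x₀) ∧ la x₀ = true) := ⟨_, fun v => Iff.rfl⟩
    have hTα : ∀ q, T (α q) ↔ lb q = true := by
      intro q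
      rw [hT]
      constructor
      · rintro (⟨q', h1, h2⟩ | ⟨j, hj, x₀, h1, h2⟩)
        · rw [hα h1]
          exact h2
        · exact absurd h1 (hαφ _ _ _)
      · intro h
        exact Or.inl ⟨q, rfl, h⟩
    have hTφ : ∀ j, j ≤ K → ∀ x₀, T (φ j (prd ω j x₀)) ↔ la x₀ = true := by
      intro j hj x₀
      rw [hT]
      constructor
      · rintro (⟨q', h1, h2⟩ | ⟨j', hj', x₀', h1, h2⟩)
        · exact absurd h1.symm (hαφ _ _ _)
        · obtain ⟨h3, h4⟩ := hφ _ hj _ hj' _ _ h1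
          subst h3
          have h5 := (prd ω j).injective h4
          rw [h5]
          exact h2
      · intro h
        exact Or.inr ⟨j, hj, x₀, rfl, h⟩
    have harc : ∀ v w, (C v w ∨ B ω v w) → (T v ↔ T w) := by
      rintro v w (h | h)
      · rcases (hC v w).1 h with ⟨ℓ, h2, h3⟩ | ⟨y, q, hq, h2, h3⟩
        · have h4 := hTφ 0 (Nat.zero_le K) (ι (ℓ, false))
          have h5 : prd ω 0 (ι (ℓ, false)) = ι (ℓ, false) := rfl
          rw [h5] at h4
          rw [h2, h3, h4, hTα, hla1]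
        · have h6 : y = prd ω K ((prd ω K)⁻¹ y) := by simp
          obtain ⟨x₀, hx₀⟩ : ∃ x₀, x₀ = (prd ω K)⁻¹ y := ⟨_, rfl⟩
          rw [← hx₀] at h6
          have h4 := hTφ K le_rfl x₀
          rw [h6] at hq h2
          rw [h2, h3, h4, hTα, hla2 x₀ q hq]
      · obtain ⟨j, hj, x, h2, h3⟩ := (hB ω v w).1 h
        have h6 : x = prd ω j ((prd ω j)⁻¹ x) := by simp
        obtain ⟨x₀, hx₀⟩ : ∃ x₀, x₀ = (prd ω j)⁻¹ x := ⟨_, rfl⟩
        rw [← hx₀] at h6
        have h4 := hTφ j hj.le x₀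
        have h5 := hTφ (j + 1) hj x₀
        have h7 : prd ω (j + 1) x₀ = ω j (prd ω j x₀) := rfl
        rw [h7] at h5
        rw [h6] at h2 h3
        rw [h2, h3, h4, h5]
    rintro ⟨i, _, p, hp0, hpi, hp⟩
    have hall : ∀ i', i' ≤ i → T (p i') := by
      intro i'
      induction i' with
      | zero =>
        intro _
        rw [hp0, ← hαs, hTα]
        exact hlbs
      | succ i' ih =>
        intro hi'
        have h1 := (hEs ω _ _).1 (hp i' (by omega))
        have h2 := ih (by omega)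
        rcases h1 with h1 | h1
        · exact (harc _ _ h1).1 h2
        · exact (harc _ _ h1).2 h2
    have h1 := hall i le_rfl
    rw [hpi, ← hαt, hTα, hlbt] at h1
    exact absurd h1 (by simp)

end P28ng
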