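import Mathlib
import Pool.Agent.Lib.P28ng.Defs

/-!
# Module P28ng.NamC : names and classes

PROOF of `sub_names`: for every class `c : Option V` choose `N'` of the `N` elements `y` outside `range ι` with `cl y = c` (`Finset.exists_subset_card_eq`); `Y` = their union over the
classes (disjoint) and the image of `ι` (`2 card Λ` elements, disjoint from them).  `card_names`: `univ` is the disjoint union of the image of `ι` and of the
sets of `hN` (`Finset.card_eq_sum_card_fiberwise` or induction; `Fintype.card_option`).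
-/

set_option autoImplicit false

namespace P28ng

open Finset

namespace NamCAux

open scoped Classical in
/-- the size of the image of `ι` together with disjoint sets of `n` elements in the classes -/
theorem card_union {X V Λ : Type} [Fintype X] [DecidableEq X] [Fintype Λ] [Fintype V]
    {ι : Λ × Bool → X} (hι : Function.Injective ι) {cl : X → Option V} {n : ℕ}
    (A : Option V → Finset X) (hA : ∀ c, ∀ y ∈ A c, (∀ a, ι a ≠ y) ∧ cl y = c)
    (hn : ∀ c, (A c).card = n) :
    (univ.image ι ∪ univ.biUnion A).card =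
      2 * Fintype.card Λ + (Fintype.card V + 1) * n := by
  rw [card_union_of_disjoint, card_image_of_injective _ hι, card_univ, card_biUnion]
  · rw [Fintype.card_prod, Fintype.card_bool, sum_congr rfl (fun c _ => hn c), sum_const,
      card_univ, Fintype.card_option, smul_eq_mul, mul_comm 2]
  · intro c _ c' _ hcc
    show Disjoint (A c) (A c')
    rw [Finset.disjoint_left]
    intro y h1 h2
    exact hcc ((hA c y h1).2.symm.trans (hA c' y h2).2)
  · rw [Finset.disjoint_left]
    intro y h1 h2
    rw [mem_image] at h1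
    rw [mem_biUnion] at h2
    obtain ⟨a, _, ha⟩ := h1
    obtain ⟨c, _, hc⟩ := h2
    exact (hA c y hc).1 a ha

end NamCAux

open scoped Classical in
theorem sub_names {X V Λ : Type} [Fintype X] [DecidableEq X] [Fintype Λ] [Fintype V]
    {ι : Λ × Bool → X} (hι : Function.Injective ι) {cl : X → Option V} {N N' : ℕ} (hNN : N' ≤ N)
    (hN : ∀ c, (univ.filter fun y => (∀ a, ι a ≠ y) ∧ cl y = c).card = N) :
    ∃ (Y : Finset X) (hY : ∀ a, ι a ∈ Y),
      (∀ c, (univ.filter fun y : {x // x ∈ Y} =>
        (∀ a, (⟨ι a, hY a⟩ : {x // x ∈ Y}) ≠ y) ∧ cl y = c).card = N') ∧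
      (∀ c, N - N' ≤ (univ.filter fun y => y ∉ Y ∧ cl y = c).card) ∧
      Y.card = 2 * Fintype.card Λ + (Fintype.card V + 1) * N' := by
  have hex : ∀ c, ∃ A : Finset X, A ⊆ (univ.filter fun y => (∀ a, ι a ≠ y) ∧ cl y = c) ∧
      A.card = N' := fun c => exists_subset_card_eq (by rw [hN c]; exact hNN)
  choose A hA hAc using hex
  have hA' : ∀ c, ∀ y ∈ A c, (∀ a, ι a ≠ y) ∧ cl y = c := by
    intro c y hy
    have := hA c hy
    rw [mem_filter] at this
    exact this.2
  set Y : Finset X := univ.image ι ∪ univ.biUnion A with hYdef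
  have hY : ∀ a, ι a ∈ Y := by
    intro a
    rw [hYdef, mem_union]
    exact Or.inl (mem_image_of_mem _ (mem_univ a))
  -- an element of `Y` outside the range, in the class `c`, is in `A c`
  have hYA : ∀ c y, (∀ a, ι a ≠ y) → cl y = c → (y ∈ Y ↔ y ∈ A c) := by
    intro c y h1 h2
    rw [hYdef, mem_union, mem_image, mem_biUnion]
    constructor
    · rintro (⟨a, _, ha⟩ | ⟨c', _, hc'⟩)
      · exact absurd ha (h1 a)
      · have := (hA' c' y hc').2
        rw [h2] at this
        rw [this]
        exact hc'
    · intro h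
      exact Or.inr ⟨c, mem_univ c, h⟩
  refine ⟨Y, hY, ?_, ?_, ?_⟩
  · intro c
    rw [← hAc c]
    apply card_bij (fun (y : {x // x ∈ Y}) _ => (y : X))
    · intro y hy
      rw [mem_filter] at hy
      have h1 : ∀ a, ι a ≠ (y : X) := by
        intro a ha
        exact hy.2.1 a (Subtype.ext ha)
      exact (hYA c y h1 hy.2.2).mp y.2
    · intro y _ y' _ h
      exact Subtype.ext h
    · intro y hy
      have h := hA' c y hy
      refine ⟨⟨y, (hYA c y h.1 h.2).mpr hy⟩, ?_, rfl⟩
      rw [mem_filter]
      refine ⟨mem_univ _, ?_, h.2⟩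
      intro a ha
      exact h.1 a (congrArg Subtype.val ha)
  · intro c
    have h1 : (univ.filter fun y => (∀ a, ι a ≠ y) ∧ cl y = c) \ A c ⊆
        (univ.filter fun y => y ∉ Y ∧ cl y = c) := by
      intro y hy
      rw [mem_sdiff, mem_filter] at hy
      rw [mem_filter]
      refine ⟨mem_univ _, ?_, hy.1.2.2⟩
      intro hyY
      exact hy.2 ((hYA c y hy.1.2.1 hy.1.2.2).mp hyY)
    have h2 := card_le_card h1
    rw [card_sdiff_of_subset (hA c), hN c, hAc c] at h2
    exact h2
  · exact NamCAux.card_union hι A hA' hAc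

open scoped Classical in
/-- number of the positions -/
theorem card_names {X V Λ : Type} [Fintype X] [DecidableEq X] [Fintype Λ] [Fintype V]
    {ι : Λ × Bool → X} (hι : Function.Injective ι) {cl : X → Option V} {N : ℕ}
    (hN : ∀ c, (univ.filter fun y => (∀ a, ι a ≠ y) ∧ cl y = c).card = N) :
    Fintype.card X = 2 * Fintype.card Λ + (Fintype.card V + 1) * N := by
  rw [← NamCAux.card_union hι (fun c => univ.filter fun y => (∀ a, ι a ≠ y) ∧ cl y = c) (by
    intro c y hy
    rw [mem_filter] at hy
    exact hy.2) hN]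
  rw [← card_univ]
  congr 1
  ext y
  simp only [mem_univ, mem_union, mem_image, mem_biUnion, mem_filter, true_and, true_iff]
  by_cases h : ∃ a, ι a = y
  · exact Or.inl h
  · right
    refine ⟨cl y, ?_, rfl⟩
    intro a ha
    exact h ⟨a, ha⟩

end P28ng
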