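import Mathlib
import Pool.Agent.Lib.P28ng.Defs

/-!
# Module P28ng.NumC : numbers for one stage

PROOF.  `s = t / 2 + 1`, `M = s - 1 + t₀ ≤ 3 t / 2` (so `2 M ≤ 3 t`, `4 M ≤ 6 t`), `T = 4 t^2`, `q = (η^e)^999`, `R = 2 η^(e+1)`, `ℓ ≤ 2 η^(e+1) ≤ η^(e+2)`.
`2 (t₀ M) ≤ 3 t^2 ≤ T`.  `q + t₀ M + η^e ≤ (η^e)^1000`: `t₀ M ≤ 2 t^2 ≤ 2 η^2`, `q = (η^e)^999 ≥ η^999`.
`S ≤ η^t`, `s + t₀ ≤ 2 t ≤ η^2`, `K' ℓ (ℓ (ℓ (M ((t₀+1)(w+1))))) + 1 ≤ η η^(3e+6) η^2 η^2 η η ≤ η^(3e+13)`, to the power `2 M ≤ 3 t`; `2 ≤ η`, `R^(2M) ≤ (η^(e+2))^(3t)`,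
`T^(4M) ≤ (η^3)^(6t)`.  Total exponent `≤ t + 2 + (9e + 39) t + 1 + (3e+6) t + 18 t ≤ (12 e + 67) t ≤ 79 e t`; right side: `(s+1)/2 ≥ t/4` (real), precisely
`4 ((s+1)/2) ≥ t`, exponent `999 e ((s+1)/2) ≥ 249 e t` (`4 * (999 e ((s+1)/2)) ≥ 999 e t`).
-/

set_option autoImplicit false

namespace P28ng

open P28ip

theorem num_stage_cls {η e w K' t₀ t S ℓ : ℕ} (he : 1 ≤ e) (hη : 1000 ≤ η) (ht8 : 8 ≤ t)
    (ht0 : t₀ ≤ t) (hK' : K' ≤ η) (htη : t ≤ η) (hwη : w + 1 ≤ η) (hS : S ≤ η ^ t)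
    (hℓ : ℓ ≤ 2 * η ^ (e + 1)) :
    2 * (t₀ * (t / 2 + 1 - 1 + t₀)) ≤ 4 * t ^ 2 ∧
    (η ^ e) ^ 999 + t₀ * (t / 2 + 1 - 1 + t₀) + η ^ e ≤ (η ^ e) ^ 1000 ∧
    S * Zc K' ℓ t₀ (t / 2 + 1) w (4 * t ^ 2) (2 * η ^ (e + 1)) <
      ((η ^ e) ^ 999) ^ ((t / 2 + 1 + 1) / 2) := by
  have hηl : η ≤ η ^ e := Nat.le_self_pow (by omega) η
  have hηp : 0 < η := by omega
  obtain ⟨M, hM⟩ : ∃ M, M = t / 2 + 1 - 1 + t₀ := ⟨_, rfl⟩
  unfold Zc
  rw [← hM]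
  have hM2 : 2 * M ≤ 3 * t := by omega
  have hM2' : M ≤ 2 * t := by omega
  refine ⟨?_, ?_, ?_⟩
  · calc 2 * (t₀ * M) ≤ 2 * (t * (2 * t)) := Nat.mul_le_mul le_rfl (Nat.mul_le_mul ht0 hM2')
      _ = 4 * t ^ 2 := by ring
  · obtain ⟨l, hl⟩ : ∃ l, l = η ^ e := ⟨_, rfl⟩
    rw [← hl] at hηl ⊢
    have hl1 : 1000 ≤ l := hη.trans hηl
    have hlp : 0 < l := by omega
    have htl : t ≤ l := htη.trans hηl
    have h1 : t₀ * M ≤ l ^ 999 := by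
      calc t₀ * M ≤ l * (2 * l) := Nat.mul_le_mul (ht0.trans htl) (by omega)
        _ = 2 * l ^ 2 := by ring
        _ ≤ l * l ^ 2 := Nat.mul_le_mul (by omega) le_rfl
        _ = l ^ 3 := by ring
        _ ≤ l ^ 999 := Nat.pow_le_pow_right hlp (by omega)
    have h2 : l ≤ l ^ 999 := Nat.le_self_pow (by omega) l
    calc l ^ 999 + t₀ * M + l ≤ l ^ 999 + l ^ 999 + l ^ 999 :=
          Nat.add_le_add (Nat.add_le_add le_rfl h1) h2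
      _ = 3 * l ^ 999 := by ring
      _ ≤ l * l ^ 999 := Nat.mul_le_mul (by omega) le_rfl
      _ = l ^ 1000 := (pow_succ' l 999).symm
  · have hR : 2 * η ^ (e + 1) ≤ η ^ (e + 2) := by
      calc 2 * η ^ (e + 1) ≤ η * η ^ (e + 1) := Nat.mul_le_mul (by omega) le_rfl
        _ = η ^ (e + 2) := (pow_succ' η (e + 1)).symm
    have hl2 : ℓ ≤ η ^ (e + 2) := hℓ.trans hR
    have h1 : t / 2 + 1 + t₀ ≤ η ^ 2 := by
      calc t / 2 + 1 + t₀ ≤ 3 * η := by omega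
        _ ≤ η * η := Nat.mul_le_mul (by omega) le_rfl
        _ = η ^ 2 := by ring
    have h2 : K' * ℓ * (ℓ * (ℓ * (M * ((t₀ + 1) * (w + 1))))) + 1 ≤ η ^ (3 * e + 13) := by
      calc K' * ℓ * (ℓ * (ℓ * (M * ((t₀ + 1) * (w + 1))))) + 1
          ≤ η * η ^ (e + 2) * (η ^ (e + 2) * (η ^ (e + 2) * ((2 * η) * ((2 * η) * η)))) +
              η ^ (3 * e + 10) := by
            apply Nat.add_le_add
            · exact Nat.mul_le_mul (Nat.mul_le_mul hK' hl2) (Nat.mul_le_mul hl2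
                (Nat.mul_le_mul hl2 (Nat.mul_le_mul (by omega) (Nat.mul_le_mul (by omega) hwη))))
            · exact Nat.one_le_pow _ _ hηp
        _ = 5 * η ^ (3 * e + 10) := by ring
        _ ≤ η * η ^ (3 * e + 10) := Nat.mul_le_mul (by omega) le_rfl
        _ = η ^ (3 * e + 11) := (pow_succ' η (3 * e + 10)).symm
        _ ≤ η ^ (3 * e + 13) := Nat.pow_le_pow_right hηp (by omega)
    have h3 : (K' * ℓ * (ℓ * (ℓ * (M * ((t₀ + 1) * (w + 1))))) + 1) ^ (2 * M) ≤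
        η ^ ((3 * e + 13) * (3 * t)) := by
      calc (K' * ℓ * (ℓ * (ℓ * (M * ((t₀ + 1) * (w + 1))))) + 1) ^ (2 * M)
          ≤ (η ^ (3 * e + 13)) ^ (2 * M) := Nat.pow_le_pow_left h2 _
        _ = η ^ ((3 * e + 13) * (2 * M)) := by rw [← pow_mul]
        _ ≤ η ^ ((3 * e + 13) * (3 * t)) :=
            Nat.pow_le_pow_right hηp (Nat.mul_le_mul le_rfl hM2)
    have h4 : 2 * (2 * η ^ (e + 1)) ^ (2 * M) ≤ η ^ (1 + (e + 2) * (3 * t)) := by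
      calc 2 * (2 * η ^ (e + 1)) ^ (2 * M) ≤ η * (η ^ (e + 2)) ^ (2 * M) :=
            Nat.mul_le_mul (by omega) (Nat.pow_le_pow_left hR _)
        _ = η ^ (1 + (e + 2) * (2 * M)) := by rw [← pow_mul, pow_add, pow_one]
        _ ≤ η ^ (1 + (e + 2) * (3 * t)) := Nat.pow_le_pow_right hηp
            (Nat.add_le_add le_rfl (Nat.mul_le_mul le_rfl hM2))
    have h5 : (4 * t ^ 2) ^ (4 * M) ≤ η ^ (18 * t) := by
      calc (4 * t ^ 2) ^ (4 * M) ≤ (η ^ 3) ^ (4 * M) := by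
            refine Nat.pow_le_pow_left ?_ _
            calc 4 * t ^ 2 ≤ η * η ^ 2 :=
                  Nat.mul_le_mul (by omega) (Nat.pow_le_pow_left htη 2)
              _ = η ^ 3 := by ring
        _ = η ^ (3 * (4 * M)) := by rw [← pow_mul]
        _ ≤ η ^ (18 * t) := Nat.pow_le_pow_right hηp (by omega)
    have hexp : t + (2 + (3 * e + 13) * (3 * t) + (1 + (e + 2) * (3 * t) + 18 * t)) <
        e * (999 * ((t / 2 + 1 + 1) / 2)) := by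
      obtain ⟨m, hm⟩ : ∃ m, m = (t / 2 + 1 + 1) / 2 := ⟨_, rfl⟩
      rw [← hm]
      have hm4 : t ≤ 4 * m := by omega
      have hA : e * t ≤ 4 * (e * m) := by
        calc e * t ≤ e * (4 * m) := Nat.mul_le_mul le_rfl hm4
          _ = 4 * (e * m) := by ring
      have hB : t ≤ e * t := Nat.le_mul_of_pos_left t (by omega)
      have h6 : t + (2 + (3 * e + 13) * (3 * t) + (1 + (e + 2) * (3 * t) + 18 * t)) =
          12 * (e * t) + 64 * t + 3 := by ring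
      have h7 : e * (999 * m) = 999 * (e * m) := by ring
      rw [h6, h7]
      generalize e * t = A at *
      generalize e * m = C at *
      omega
    calc S * ((t / 2 + 1 + t₀) *
          (K' * ℓ * (ℓ * (ℓ * (M * ((t₀ + 1) * (w + 1))))) + 1) ^ (2 * M) *
          (2 * (2 * η ^ (e + 1)) ^ (2 * M) * (4 * t ^ 2) ^ (4 * M)))
        ≤ η ^ t * (η ^ 2 * η ^ ((3 * e + 13) * (3 * t)) *
            (η ^ (1 + (e + 2) * (3 * t)) * η ^ (18 * t))) :=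
          Nat.mul_le_mul hS (Nat.mul_le_mul (Nat.mul_le_mul h1 h3) (Nat.mul_le_mul h4 h5))
      _ = η ^ (t + (2 + (3 * e + 13) * (3 * t) + (1 + (e + 2) * (3 * t) + 18 * t))) := by
          simp only [← pow_add]
      _ < η ^ (e * (999 * ((t / 2 + 1 + 1) / 2))) := Nat.pow_lt_pow_right (by omega) hexp
      _ = ((η ^ e) ^ 999) ^ ((t / 2 + 1 + 1) / 2) := by rw [pow_mul, pow_mul]

end P28ng
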