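import Mathlib
import Pool.Agent.Lib.P28ng.Cls
import Pool.Agent.Lib.P28ip.Luck

/-!
# Module P28ng.LuckC : few configurations follow a pattern (with classes)

PROOF.  Copy the proof of `P28ip.luck` (Luck.lean) with these changes.  `E` = the configurations in the filter on the left.  Allowed partners of `v ∈ U`
(`j = hid w P v`, `γ = gam w (ext K ω) P.H`): the `x` with `(j, x) ∉ Loc`, `(γ j).symm x ∉ Y` and `cl ((γ j).symm x) = cl (fi w P.H K j v.2)`.  There are at least
`q` of them: the map `y ↦ γ j y` is injective on `{y ∉ Y, cl y = cl (fi ..)}` (`hq`), at most `t₀ m` values are in `Loc`.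
`Fre.ne`: `c v ≠ γ j u.2` because `u.2 ∈ Y`.  The injective map `(ω, c, F) ↦ (mdf w P ω c, F)` (`mdf_inj`) goes into the set of the pairs whose first component
is in the filter on the right by `mdf_cls` (its hypothesis: `fi w P.H K j x' = x'` for `x' = (γ j).symm (c v) ∉ Y`, `fi_out`).
-/

set_option autoImplicit false

namespace P28ng

open P28ip Finset
open P28ip.InjAux P28ip.LuckAux

open scoped Classical in
theorem luck_cls {X C : Type} [Fintype X] [DecidableEq X] {w K K' t₀ T q : ℕ} {Y : Finset X}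
    {KK : Set (Finset (Arc X))} {rk : Finset (Arc X) → ℕ} {enc : Finset (Arc X) → Arc X → ℕ}
    {P : Pat X} {xA : ℕ × X → X} (cl : X → C)
    (hP : P.OK K' w) (hK : K = K' * (w + 1)) (hrk : Function.Injective rk)
    (henc : ∀ κ ∈ KK, ∀ e ∈ κ, ∀ e' ∈ κ, enc κ e = enc κ e' → e = e')
    (hKK : ∀ κ ∈ KK, κ.card ≤ t₀ ∧ ∀ e ∈ κ, e.1 < K)
    (hT : 2 * (t₀ * P.m) ≤ T) (hT1 : 1 ≤ T) (hH : Sup Y P.H) (hVY : ∀ v ∈ P.V, v.2 ∈ Y)
    (hq : ∀ x, q + t₀ * P.m ≤ (univ.filter fun y => y ∉ Y ∧ cl y = cl x).card) :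
    (univ.filter fun ω : Fin K → Equiv.Perm X =>
        (∀ x, cl (gam w (ext K ω) P.H K x) = cl x) ∧
          ∃ κ, Ev w KK rk enc P xA (ext K ω) κ).card * q ^ P.U.card ≤
      2 * T ^ (2 * P.U.card) * (univ.filter fun ω : Fin K → Equiv.Perm X =>
        ∀ x, cl (gam w (ext K ω) P.H K x) = cl x).card := by
  set Ω : Finset (Fin K → Equiv.Perm X) := univ.filter fun ω : Fin K → Equiv.Perm X =>
        ∀ x, cl (gam w (ext K ω) P.H K x) = cl x with hΩ
  set E : Finset (Fin K → Equiv.Perm X) := univ.filter fun ω : Fin K → Equiv.Perm X =>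
        (∀ x, cl (gam w (ext K ω) P.H K x) = cl x) ∧
          ∃ κ, Ev w KK rk enc P xA (ext K ω) κ with hE
  have hex : ∀ ω : Fin K → Equiv.Perm X, ∃ κ, ω ∈ E → Ev w KK rk enc P xA (ext K ω) κ := by
    intro ω
    by_cases h : ω ∈ E
    · obtain ⟨κ, hκ⟩ := (mem_filter.1 h).2.2
      exact ⟨κ, fun _ => hκ⟩
    · exact ⟨fun _ => ∅, fun h' => absurd h' h⟩
  choose κ hκ using hex
  -- the allowed partners
  let Cv : (Fin K → Equiv.Perm X) → P.U → Finset X := fun ω v =>
    univ.filter fun x => (hid w P v.1, x) ∉ Loc w P.m (κ ω) ∧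
      (gam w (ext K ω) P.H (hid w P v.1)).symm x ∉ Y ∧
      cl (fi w P.H K (hid w P v.1) ((gam w (ext K ω) P.H (hid w P v.1)).symm x)) =
        cl (fi w P.H K (hid w P v.1) v.1.2)
  let Fs : (Fin K → Equiv.Perm X) → (P.U → X) → Finset (Fin K × X → Fin T) := fun ω c' =>
    univ.filter fun F => Fre w P ω (κ ω) (cx c') F
  have hcard : ∀ ω ∈ E, ∀ a < P.m, (κ ω a).card ≤ t₀ := fun ω hω a ha =>
    (hKK _ ((hκ ω hω).fst a ha).1).1
  have hCv : ∀ ω ∈ E, ∀ v, q ≤ (Cv ω v).card := by
    intro ω hω v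
    have h1 : ((univ.filter fun y => y ∉ Y ∧ cl y = cl (fi w P.H K (hid w P v.1) v.1.2)).image
        fun y => gam w (ext K ω) P.H (hid w P v.1) y) ⊆ Cv ω v ∪
        (univ.filter fun x => (hid w P v.1, x) ∈ Loc w P.m (κ ω)) := by
      intro x hx
      obtain ⟨y, hy, rfl⟩ := mem_image.1 hx
      have hy' := (mem_filter.1 hy).2
      by_cases h1 : (hid w P v.1, gam w (ext K ω) P.H (hid w P v.1) y) ∈ Loc w P.m (κ ω)
      · exact mem_union_right _ (mem_filter.2 ⟨mem_univ _, h1⟩)
      · refine mem_union_left _ (mem_filter.2 ⟨mem_univ _, h1, ?_, ?_⟩)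
        · rw [Equiv.symm_apply_apply]
          exact hy'.1
        · rw [Equiv.symm_apply_apply, fi_out w hH K _ hy'.1]
          exact hy'.2
    have h2 : (univ.filter fun x => (hid w P v.1, x) ∈ Loc w P.m (κ ω)).card ≤ t₀ * P.m := by
      have h3 := loc_card (hcard ω hω)
        ((univ.filter fun x => (hid w P v.1, x) ∈ Loc w P.m (κ ω)).image
          fun x => (hid w P v.1, x)) (by
          intro l hl
          obtain ⟨x, hx, rfl⟩ := mem_image.1 hl
          exact (mem_filter.1 hx).2)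
      rw [card_image_of_injective _ (fun x y hxy => (Prod.ext_iff.1 hxy).2)] at h3
      exact h3
    have h4 := card_le_card h1
    rw [card_image_of_injective _ (Equiv.injective _)] at h4
    have h5 := card_union_le (Cv ω v) (univ.filter fun x => (hid w P v.1, x) ∈ Loc w P.m (κ ω))
    have h6 := hq (fi w P.H K (hid w P v.1) v.1.2)
    omega
  have hpi : ∀ ω ∈ E, q ^ P.U.card ≤
      (Fintype.piFinset (Cv ω)).card := by
    intro ω hω
    rw [Fintype.card_piFinset]
    calc q ^ P.U.card = ∏ _v : P.U, q := by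
          rw [prod_const, card_univ, Fintype.card_coe]
      _ ≤ ∏ v : P.U, (Cv ω v).card := prod_le_prod' fun v _ => hCv ω hω v
  -- many freezings
  have hFs : ∀ ω ∈ E, ∀ c' ∈ Fintype.piFinset (Cv ω),
      T ^ Fintype.card (Fin K × X) ≤ 2 * T ^ (2 * P.U.card) * (Fs ω c').card := by
    intro ω hω c' hc'
    rw [Fintype.mem_piFinset] at hc'
    let A : Finset (Fin K × X) := univ.filter fun l => ((l.1 : ℕ), l.2) ∈ Loc w P.m (κ ω)
    let B : Finset (Fin K × X) :=
      (univ.image fun v : P.U => ((⟨hid w P v.1, hid_lt hP hK v.2⟩ : Fin K),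
        gam w (ext K ω) P.H (hid w P v.1) v.1.2)) ∪
      (univ.image fun v : P.U => ((⟨hid w P v.1, hid_lt hP hK v.2⟩ : Fin K), c' v))
    have hA : A.card ≤ t₀ * P.m := by
      have h3 := loc_card (hcard ω hω) (A.image fun l => ((l.1 : ℕ), l.2)) (by
          intro l hl
          obtain ⟨x, hx, rfl⟩ := mem_image.1 hl
          exact (mem_filter.1 hx).2)
      rw [card_image_of_injective _ (fun x y hxy => by
        rw [Prod.ext_iff] at hxy
        exact Prod.ext (Fin.ext hxy.1) hxy.2)] at h3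
      exact h3
    have hB : B.card ≤ 2 * P.U.card := by
      have h1 : (univ.image fun v : P.U => ((⟨hid w P v.1, hid_lt hP hK v.2⟩ : Fin K),
        gam w (ext K ω) P.H (hid w P v.1) v.1.2)).card ≤ P.U.card := by
        refine card_image_le.trans ?_
        rw [card_univ, Fintype.card_coe]
      have h2 : (univ.image fun v : P.U =>
          ((⟨hid w P v.1, hid_lt hP hK v.2⟩ : Fin K), c' v)).card ≤ P.U.card := by
        refine card_image_le.trans ?_
        rw [card_univ, Fintype.card_coe]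
      have h3 := card_union_le (univ.image fun v : P.U =>
        ((⟨hid w P v.1, hid_lt hP hK v.2⟩ : Fin K), gam w (ext K ω) P.H (hid w P v.1) v.1.2))
        (univ.image fun v : P.U => ((⟨hid w P v.1, hid_lt hP hK v.2⟩ : Fin K), c' v))
      show (_ ∪ _ : Finset (Fin K × X)).card ≤ _
      omega
    have hAB : Disjoint A B := by
      rw [disjoint_left]
      intro l hl hlB
      have hl' := (mem_filter.1 hl).2
      rcases mem_union.1 hlB with h | h
      · obtain ⟨v, -, rfl⟩ := mem_image.1 h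
        exact hid_not_loc hP (hκ ω hω) v.2 hl'
      · obtain ⟨v, -, rfl⟩ := mem_image.1 h
        exact ((mem_filter.1 (hc' v)).2).1 hl'
    have h := freeze_card T (t₀ * P.m) (2 * P.U.card) A B hAB hA hB hT hT1
    refine h.trans (Nat.mul_le_mul_left _ (card_le_card ?_))
    intro F hF
    obtain ⟨-, hFA, hFB⟩ := mem_filter.1 hF
    refine mem_filter.2 ⟨mem_univ _, ⟨?_, ?_, ?_, ?_⟩⟩
    · intro j x hjx
      exact hFA _ (mem_filter.2 ⟨mem_univ _, hjx⟩)
    · intro v hv j hj
      have e : j = ⟨hid w P v, hid_lt hP hK hv⟩ := Fin.ext hj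
      subst e
      exact hFB _ (mem_union_left _ (mem_image.2 ⟨⟨v, hv⟩, mem_univ _, rfl⟩))
    · intro v hv j hj
      have e : j = ⟨hid w P v, hid_lt hP hK hv⟩ := Fin.ext hj
      subst e
      rw [cx_eq c' hv]
      exact hFB _ (mem_union_right _ (mem_image.2 ⟨⟨v, hv⟩, mem_univ _, rfl⟩))
    · intro v hv u hu _
      rw [cx_eq c' hv]
      intro he
      have h7 := ((mem_filter.1 (hc' ⟨v, hv⟩)).2).2.1
      rw [he, Equiv.symm_apply_apply] at h7
      exact h7 (hVY u (hP.usub hu))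
  -- the triples
  let S := E.sigma fun ω => (Fintype.piFinset (Cv ω)).sigma fun c' => Fs ω c'
  have hS1 : E.card * q ^ P.U.card * T ^ Fintype.card (Fin K × X) ≤
      2 * T ^ (2 * P.U.card) * S.card := by
    have e1 : S.card = ∑ ω ∈ E, ∑ c' ∈ Fintype.piFinset (Cv ω), (Fs ω c').card := by
      show (E.sigma _).card = _
      rw [card_sigma]
      exact sum_congr rfl fun ω _ => card_sigma _ _
    rw [e1, mul_sum]
    calc E.card * q ^ P.U.card * T ^ Fintype.card (Fin K × X)
        = ∑ _ω ∈ E, q ^ P.U.card * T ^ Fintype.card (Fin K × X) := by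
          rw [sum_const, smul_eq_mul, mul_assoc]
      _ ≤ ∑ ω ∈ E, 2 * T ^ (2 * P.U.card) *
            ∑ c' ∈ Fintype.piFinset (Cv ω), (Fs ω c').card := by
          refine sum_le_sum fun ω hω => ?_
          rw [mul_sum]
          calc q ^ P.U.card * T ^ Fintype.card (Fin K × X)
              ≤ (Fintype.piFinset (Cv ω)).card * T ^ Fintype.card (Fin K × X) :=
                Nat.mul_le_mul_right _ (hpi ω hω)
            _ = ∑ _c' ∈ Fintype.piFinset (Cv ω), T ^ Fintype.card (Fin K × X) := by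
                rw [sum_const, smul_eq_mul]
            _ ≤ _ := sum_le_sum fun c' hc' => hFs ω hω c' hc'
  have hS2 : S.card ≤ Ω.card * T ^ Fintype.card (Fin K × X) := by
    have h1 : S.card ≤ (Ω ×ˢ (univ : Finset (Fin K × X → Fin T))).card := by
      apply card_le_card_of_injOn (fun z => (mdf w P z.1 (cx z.2.1), z.2.2))
      · rintro ⟨ω, c', F⟩ hz
        rw [mem_coe, mem_sigma, mem_sigma] at hz
        obtain ⟨hω, hc', -⟩ := hz
        rw [Fintype.mem_piFinset] at hc'
        refine mem_coe.2 (mem_product.2 ⟨mem_filter.2 ⟨mem_univ _, ?_⟩, mem_univ _⟩)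
        refine mdf_cls cl ω (cx c') ?_ (mem_filter.1 hω).2.1
        intro v hv
        rw [cx_eq c' hv]
        exact (((mem_filter.1 (hc' ⟨v, hv⟩)).2).2.2).symm
      rintro ⟨ω₁, c₁, F₁⟩ hz₁ ⟨ω₂, c₂, F₂⟩ hz₂ h
      rw [mem_coe, mem_sigma, mem_sigma] at hz₁ hz₂
      obtain ⟨hω₁, hc₁, hF₁⟩ := hz₁
      obtain ⟨hω₂, hc₂, hF₂⟩ := hz₂
      rw [Prod.ext_iff] at h
      obtain ⟨hm, hF⟩ := h
      have hF' : F₁ = F₂ := hF
      subst hF'
      obtain ⟨e1, e2⟩ := mdf_inj hP hK hrk henc (fun κ' hκ' => (hKK κ' hκ').2) (hκ ω₁ hω₁)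
        (hκ ω₂ hω₂) (mem_filter.1 hF₁).2 (mem_filter.1 hF₂).2 hm
      have e1' : ω₁ = ω₂ := e1
      subst e1'
      have e2' : c₁ = c₂ := by
        funext v
        have := e2 v.1 v.2
        rw [cx_eq c₁ v.2, cx_eq c₂ v.2] at this
        exact this
      subst e2'
      rfl
    refine h1.trans (le_of_eq ?_)
    rw [card_product, card_univ, Fintype.card_fun, Fintype.card_fin]
  have hpos : 0 < T ^ Fintype.card (Fin K × X) := Nat.pow_pos hT1
  refine Nat.le_of_mul_le_mul_right ?_ hpos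
  calc E.card * q ^ P.U.card * T ^ Fintype.card (Fin K × X)
      ≤ 2 * T ^ (2 * P.U.card) * S.card := hS1
    _ ≤ 2 * T ^ (2 * P.U.card) *
        (Ω.card * T ^ Fintype.card (Fin K × X)) :=
        Nat.mul_le_mul_left _ hS2
    _ = 2 * T ^ (2 * P.U.card) * Ω.card *
        T ^ Fintype.card (Fin K × X) := by ring

end P28ng
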