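import Mathlib
import Pool.Agent.Lib.P28ng.LuckC
import Pool.Agent.Lib.P28ip.Union

/-!
# Module P28ng.UnionC : the union bound (with classes)

PROOF.  Copy the proofs of `P28ip.UnionAux.pat_count` and `P28ip.bad_count` (Union.lean) with these changes.  All sets of configurations `ω0` are restricted to those
with `∀ x, cl (prd (ext K ω0) K x) = cl x`.  `Φ ω0 = fun j => tht w (prd (ext K ω0)) P.H j` is injective (`tht_inj`) and `gam w (ext K (Φ ω0)) P.H j = prd (ext K ω0) j` for `j ≤ K`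
(`gam_congr`, `gam_tht`), so it maps the restricted set into the set `Ω_H = {ω | ∀ x, cl (gam w (ext K ω) P.H K x) = cl x}`; and `gam_card`:
`card Ω_H ≤ card {ω0 | ∀ x, cl (prd (ext K ω0) K x) = cl x}` by the injective map `ω ↦ fun j => gam .. (j + 1) * (gam .. j)⁻¹` (its `prd` at `j ≤ K` is `gam w (ext K ω) H j`, and
`ω j = tht w (gam ..) H j`).  `luck_cls` replaces `luck`: its `hH`: `Sup Y (labH a)` (in both cases of the definition of `labH`), its `hVY`: the definition of `patOf`,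
`hq` because `P.m ≤ s - 1 + t₀`.  The number of the `xA` is `(card X)^|V \ TT| ≤ R^|V \ TT| q^|V \ TT| ≤ R^(2 M) q^|V \ TT|`, `M = s - 1 + t₀` (`1 ≤ R`: `X` is not empty or there is
nothing to prove).
-/

set_option autoImplicit false

namespace P28ng

open P28ip Finset

namespace UnionCAux

theorem ext_lt {X : Type} {K : ℕ} (ω : Fin K → Equiv.Perm X) {j : ℕ} (h : j < K) :
    ext K ω j = ω ⟨j, h⟩ := by
  unfold P28ip.ext
  rw [dif_pos h]

/-- the configuration with gauge `gam w (ext K ω) H` -/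
def psi {X : Type} (w K : ℕ) (H : ℕ → Equiv.Perm X) (ω : Fin K → Equiv.Perm X) :
    Fin K → Equiv.Perm X :=
  fun j => gam w (ext K ω) H (j + 1) * (gam w (ext K ω) H j)⁻¹

theorem prd_psi {X : Type} (w K : ℕ) (H : ℕ → Equiv.Perm X) (ω : Fin K → Equiv.Perm X) :
    ∀ j, j ≤ K → prd (ext K (psi w K H ω)) j = gam w (ext K ω) H j := by
  intro j
  induction j with
  | zero => intro _; rfl
  | succ j ih =>
    intro hj
    change ext K (psi w K H ω) j * prd (ext K (psi w K H ω)) j = _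
    rw [ih (Nat.le_of_succ_le hj), ext_lt _ (Nat.lt_of_succ_le hj)]
    unfold psi
    rw [inv_mul_cancel_right]

theorem psi_inj {X : Type} (w K : ℕ) (H : ℕ → Equiv.Perm X) :
    Function.Injective (psi w K H) := by
  intro ω ω' h
  have h1 : ∀ j, j ≤ K → gam w (ext K ω) H j = gam w (ext K ω') H j := by
    intro j hj
    rw [← prd_psi w K H ω j hj, ← prd_psi w K H ω' j hj, h]
  funext j
  have h2 := tht_gam w (ext K ω) H j
  have h3 := tht_gam w (ext K ω') H j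
  unfold tht at h2 h3
  rw [h1 _ j.isLt, h1 _ (le_of_lt j.isLt)] at h2
  rw [h3] at h2
  rw [ext_lt _ j.isLt, ext_lt _ j.isLt] at h2
  exact h2.symm

theorem gam_phi {X : Type} (w K : ℕ) (H : ℕ → Equiv.Perm X) (ω0 : Fin K → Equiv.Perm X) :
    gam w (ext K fun j : Fin K => tht w (prd (ext K ω0)) H j) H K = prd (ext K ω0) K := by
  rw [← gam_tht w (γ := prd (ext K ω0)) rfl H K]
  refine gam_congr w H ?_
  intro j hj
  rw [ext_lt _ hj]

end UnionCAux

open UnionCAux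

open scoped Classical in
/-- a change of gauge does not change the number of the configurations with the classes right -/
theorem gam_card {X C : Type} [Fintype X] [DecidableEq X] (w K : ℕ) (H : ℕ → Equiv.Perm X)
    (cl : X → C) :
    (univ.filter fun ω : Fin K → Equiv.Perm X =>
        ∀ x, cl (gam w (ext K ω) H K x) = cl x).card ≤
      (univ.filter fun ω0 : Fin K → Equiv.Perm X =>
        ∀ x, cl (prd (ext K ω0) K x) = cl x).card := by
  refine card_le_card_of_injOn (psi w K H) ?_ (fun ω _ ω' _ h => psi_inj w K H h)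
  intro ω hω
  have h1 := (mem_filter.1 (mem_coe.1 hω)).2
  refine mem_coe.2 (mem_filter.2 ⟨mem_univ _, ?_⟩)
  rw [prd_psi w K H ω K le_rfl]
  exact h1

namespace UnionCAux

open scoped Classical in
theorem pat_count {X C : Type} [Fintype X] [DecidableEq X] {w K K' t₀ s T M q R : ℕ}
    {Y : Finset X} {KK : Set (Finset (Arc X))}
    {rk : Finset (Arc X) → ℕ} {enc : Finset (Arc X) → Arc X → ℕ} {P : Pat X} (cl : X → C)
    (hK : K = K' * (w + 1)) (hKK : ∀ κ ∈ KK, κ.card ≤ t₀ ∧ ∀ e ∈ κ, e.1 < K)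
    (hrk : Function.Injective rk)
    (henc' : ∀ κ ∈ KK, ∀ e ∈ κ, ∀ e' ∈ κ, enc κ e = enc κ e' → e = e')
    (hT1 : 1 ≤ T) (hT : 2 * (t₀ * M) ≤ T)
    (hq : ∀ x, q + t₀ * M ≤ (univ.filter fun y => y ∉ Y ∧ cl y = cl x).card)
    (hq1 : 1 ≤ q) (hR : Fintype.card X ≤ R * q) (hN1 : 1 ≤ Fintype.card X)
    (hP : P.OK K' w) (hV : P.V.card ≤ 2 * M) (hm : P.m ≤ M) (hTT : s ≤ P.TT.card)
    (hU : 2 * (P.V \ P.U).card ≤ P.TT.card) (hH : Sup Y P.H) (hVY : ∀ v ∈ P.V, v.2 ∈ Y) :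
    (univ.filter fun ω0 : Fin K → Equiv.Perm X => (∀ x, cl (prd (ext K ω0) K x) = cl x) ∧
        ∃ xA κ, Ev w KK rk enc P xA
          (ext K fun j => tht w (prd (ext K ω0)) P.H j) κ).card * q ^ ((s + 1) / 2) ≤
      2 * R ^ (2 * M) * T ^ (4 * M) * (univ.filter fun ω0 : Fin K → Equiv.Perm X =>
        ∀ x, cl (prd (ext K ω0) K x) = cl x).card := by
  set E : Finset (Fin K → Equiv.Perm X) := univ.filter fun ω0 : Fin K → Equiv.Perm X =>
        (∀ x, cl (prd (ext K ω0) K x) = cl x) ∧ ∃ xA κ, Ev w KK rk enc P xA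
          (ext K fun j => tht w (prd (ext K ω0)) P.H j) κ with hE
  let Ef : ({v // v ∈ P.V \ P.TT} → X) → Finset (Fin K → Equiv.Perm X) := fun f =>
    univ.filter fun ω : Fin K → Equiv.Perm X => (∀ x, cl (gam w (ext K ω) P.H K x) = cl x) ∧
      ∃ κ, Ev w KK rk enc P (UnionAux.xe f) (ext K ω) κ
  let Φ : (Fin K → Equiv.Perm X) → (Fin K → Equiv.Perm X) := fun ω0 j =>
    tht w (prd (ext K ω0)) P.H j
  have hΦ : Function.Injective Φ := by
    intro ω ω' h
    refine tht_inj w P.H (fun j hj => ?_)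
    exact congrFun h ⟨j, hj⟩
  have h1 : E.card ≤ ∑ f, (Ef f).card := by
    rw [← card_image_of_injective E hΦ]
    refine (card_le_card ?_).trans card_biUnion_le
    intro ω hω
    obtain ⟨ω0, h0, rfl⟩ := mem_image.1 hω
    obtain ⟨hcl, xA, κ, h2⟩ := (mem_filter.1 h0).2
    obtain ⟨f, h3⟩ := UnionAux.ev_xe h2
    refine mem_biUnion.2 ⟨f, mem_univ _, mem_filter.2 ⟨mem_univ _, ?_, κ, h3⟩⟩
    intro x
    have h4 := gam_phi w K P.H ω0
    change cl (gam w (ext K fun j : Fin K => tht w (prd (ext K ω0)) P.H j) P.H K x) = cl x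
    rw [h4]
    exact hcl x
  have hUV : P.U.card ≤ P.V.card := card_le_card hP.usub
  have hTm : t₀ * P.m ≤ t₀ * M := Nat.mul_le_mul_left _ hm
  have h2 : ∀ f, (Ef f).card * q ^ P.U.card ≤
      2 * T ^ (2 * P.U.card) * (univ.filter fun ω0 : Fin K → Equiv.Perm X =>
        ∀ x, cl (prd (ext K ω0) K x) = cl x).card := by
    intro f
    have h5 := luck_cls (xA := UnionAux.xe f) cl hP hK hrk henc' hKK (by omega) hT1 hH hVY
      (fun x => le_trans (Nat.add_le_add_left hTm q) (hq x))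
    exact h5.trans (Nat.mul_le_mul_left _ (gam_card w K P.H cl))
  have hcf : Fintype.card ({v // v ∈ P.V \ P.TT} → X) = Fintype.card X ^ (P.V \ P.TT).card := by
    rw [Fintype.card_fun, Fintype.card_coe]
  obtain ⟨Q, hQ⟩ : ∃ Q, Q = (univ.filter fun ω0 : Fin K → Equiv.Perm X =>
        ∀ x, cl (prd (ext K ω0) K x) = cl x).card := ⟨_, rfl⟩
  rw [← hQ] at h2
  rw [← hQ]
  have h3 : E.card * q ^ P.U.card ≤
      Fintype.card X ^ (P.V \ P.TT).card * (2 * T ^ (2 * P.U.card) * Q) := by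
    calc E.card * q ^ P.U.card
        ≤ (∑ f, (Ef f).card) * q ^ P.U.card := Nat.mul_le_mul_right _ h1
      _ = ∑ f, (Ef f).card * q ^ P.U.card := sum_mul _ _ _
      _ ≤ ∑ _f : {v // v ∈ P.V \ P.TT} → X, 2 * T ^ (2 * P.U.card) * Q :=
          sum_le_sum fun f _ => h2 f
      _ = _ := by rw [sum_const, card_univ, hcf, smul_eq_mul]
  -- arithmetic
  obtain ⟨N, hNd⟩ : ∃ N, N = Fintype.card X := ⟨_, rfl⟩
  rw [← hNd] at h3 hR hN1
  have hR1 : 1 ≤ R := by
    rcases Nat.eq_zero_or_pos R with h | h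
    · rw [h, zero_mul] at hR
      omega
    · exact h
  have c1 : (P.V \ P.U).card + P.U.card = P.V.card := card_sdiff_add_card_eq_card hP.usub
  have c2 : (P.V \ P.TT).card + P.TT.card = P.V.card := card_sdiff_add_card_eq_card hP.tsub
  have hUb : (s + 1) / 2 + (P.V \ P.TT).card ≤ P.U.card := by omega
  have hd : (P.V \ P.TT).card ≤ 2 * M := by omega
  obtain ⟨d, hdd⟩ : ∃ d, d = (P.V \ P.TT).card := ⟨_, rfl⟩
  rw [← hdd] at hUb hd h3
  have h4 : N ^ d ≤ R ^ (2 * M) * q ^ d := by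
    calc N ^ d ≤ (R * q) ^ d := Nat.pow_le_pow_left hR d
      _ = R ^ d * q ^ d := mul_pow _ _ _
      _ ≤ R ^ (2 * M) * q ^ d := Nat.mul_le_mul_right _ (Nat.pow_le_pow_right hR1 hd)
  have h5 : T ^ (2 * P.U.card) ≤ T ^ (4 * M) := Nat.pow_le_pow_right hT1 (by omega)
  have h6 : (E.card * q ^ ((s + 1) / 2)) * q ^ d ≤
      (2 * R ^ (2 * M) * T ^ (4 * M) * Q) * q ^ d := by
    calc (E.card * q ^ ((s + 1) / 2)) * q ^ d = E.card * q ^ ((s + 1) / 2 + d) := by
          rw [pow_add, mul_assoc]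
      _ ≤ E.card * q ^ P.U.card :=
          Nat.mul_le_mul_left _ (Nat.pow_le_pow_right hq1 hUb)
      _ ≤ N ^ d * (2 * T ^ (2 * P.U.card) * Q) := h3
      _ ≤ (R ^ (2 * M) * q ^ d) * (2 * T ^ (4 * M) * Q) :=
          Nat.mul_le_mul h4 (Nat.mul_le_mul_right _ (Nat.mul_le_mul_left _ h5))
      _ = (2 * R ^ (2 * M) * T ^ (4 * M) * Q) * q ^ d := by ring
  exact Nat.le_of_mul_le_mul_right h6 (Nat.pow_pos hq1)

theorem sup_labH {X : Type} [Fintype X] [DecidableEq X] {Y : Finset X} {K' m₁ t₁ w₁ : ℕ}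
    (a : Fin K' × {x // x ∈ Y} → Option (Att Y m₁ t₁ w₁)) : Sup Y (labH a) := by
  classical
  unfold labH
  split_ifs with h
  · exact h.choose_spec.1
  · intro i z _
    rfl

theorem patOf_vy {X : Type} [Fintype X] [DecidableEq X] {Y : Finset X} {K' m₁ t₁ w₁ : ℕ}
    (a : Fin K' × {x // x ∈ Y} → Option (Att Y m₁ t₁ w₁)) (m : ℕ) :
    ∀ v ∈ (patOf a m).V, v.2 ∈ Y := by
  intro v hv
  obtain ⟨j, _, rfl⟩ := mem_image.1 hv
  exact j.2.2

end UnionCAux

open scoped Classical in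
theorem bad_count_cls {X C : Type} [Fintype X] [DecidableEq X] {w K K' t₀ s T q R : ℕ}
    {Y : Finset X} {KK : Set (Finset (Arc X))} {rk : Finset (Arc X) → ℕ}
    {enc : Finset (Arc X) → Arc X → ℕ} (cl : X → C)
    (hK : K = K' * (w + 1)) (hw : 2 * t₀ ≤ w) (hw0 : 1 ≤ w) (hs1 : 1 ≤ s)
    (hKK : ∀ κ ∈ KK, κ.card ≤ t₀ ∧ ∀ e ∈ κ, e.1 < K) (hrk : Function.Injective rk)
    (henc : ∀ κ ∈ KK, ∀ e ∈ κ, enc κ e < t₀)
    (henc' : ∀ κ ∈ KK, ∀ e ∈ κ, ∀ e' ∈ κ, enc κ e = enc κ e' → e = e')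
    (hT1 : 1 ≤ T) (hT : 2 * (t₀ * (s - 1 + t₀)) ≤ T)
    (hq : ∀ x, q + t₀ * (s - 1 + t₀) ≤ (univ.filter fun y => y ∉ Y ∧ cl y = cl x).card)
    (hq1 : 1 ≤ q) (hR : Fintype.card X ≤ R * q) (hN1 : 1 ≤ Fintype.card X) :
    (univ.filter fun ω0 : Fin K → Equiv.Perm X => (∀ x, cl (prd (ext K ω0) K x) = cl x) ∧
        Bad w K' s Y KK (prd (ext K ω0))).card * q ^ ((s + 1) / 2) ≤
      Zc K' Y.card t₀ s w T R * (univ.filter fun ω0 : Fin K → Equiv.Perm X =>
        ∀ x, cl (prd (ext K ω0) K x) = cl x).card := by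
  classical
  obtain ⟨M, hM⟩ : ∃ M, M = s - 1 + t₀ := ⟨_, rfl⟩
  have hst : s + t₀ = M + 1 := by omega
  unfold Zc
  rw [← hM] at hT ⊢
  rw [← hM] at hq
  rw [hst]
  obtain ⟨Q, hQ⟩ : ∃ Q, Q = (univ.filter fun ω0 : Fin K → Equiv.Perm X =>
        ∀ x, cl (prd (ext K ω0) K x) = cl x).card := ⟨_, rfl⟩
  rw [← hQ]
  obtain ⟨D, hD⟩ : ∃ D, D = 2 * R ^ (2 * M) * T ^ (4 * M) * Q := ⟨_, rfl⟩
  set B : Finset (Fin K → Equiv.Perm X) := univ.filter fun ω0 : Fin K → Equiv.Perm X =>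
        (∀ x, cl (prd (ext K ω0) K x) = cl x) ∧ Bad w K' s Y KK (prd (ext K ω0)) with hB
  let S : Finset (Fin K' × {x // x ∈ Y} → Option (Att Y M t₀ w)) :=
    univ.filter fun a => (univ.filter fun j => a j ≠ none).card ≤ 2 * M
  let good : ℕ → (Fin K' × {x // x ∈ Y} → Option (Att Y M t₀ w)) → Prop := fun m a =>
    (patOf a m).OK K' w ∧ s ≤ (patOf a m).TT.card ∧
      2 * ((patOf a m).V \ (patOf a m).U).card ≤ (patOf a m).TT.card
  let E : ℕ × (Fin K' × {x // x ∈ Y} → Option (Att Y M t₀ w)) → Finset (Fin K → Equiv.Perm X) :=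
    fun z => univ.filter fun ω0 => good z.1 z.2 ∧ (∀ x, cl (prd (ext K ω0) K x) = cl x) ∧
      ∃ xA κ, Ev w KK rk enc (patOf z.2 z.1) xA
          (ext K fun j => tht w (prd (ext K ω0)) (patOf z.2 z.1).H j) κ
  have hsub : B ⊆ (range (M + 1) ×ˢ S).biUnion E := by
    intro ω0 hω
    obtain ⟨hcl, h, hh, hno, hDD⟩ := (mem_filter.1 hω).2
    obtain ⟨m, D', κ, ρ, TT, hS, hs, hs2⟩ := chain_main hK hKK hh hno hs1 hDD
    have hcode := code hK hw hw0 hKK henc hh hS hs1 hs hs2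
    rw [← hM] at hcode
    obtain ⟨hm, a, ha, hok, hTT, hU, xA, κ', hEv⟩ := hcode
    refine mem_biUnion.2 ⟨(m, a), mem_product.2 ⟨mem_range.2 (by omega), mem_filter.2
      ⟨mem_univ _, ?_⟩⟩, mem_filter.2 ⟨mem_univ _, ⟨hok, hTT, hU⟩, hcl, xA, κ', hEv⟩⟩
    convert ha
  have hE : ∀ z ∈ range (M + 1) ×ˢ S, (E z).card * q ^ ((s + 1) / 2) ≤ D := by
    rintro ⟨m, a⟩ hz
    obtain ⟨hm, ha⟩ := mem_product.1 hz
    have hm' : m ≤ M := Nat.lt_succ_iff.1 (mem_range.1 hm)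
    by_cases hg : good m a
    · obtain ⟨hok, hTT, hU⟩ := hg
      have hV : (patOf a m).V.card ≤ 2 * M := by
        refine card_image_le.trans ?_
        have h1 := (mem_filter.1 ha).2
        convert h1
      have h2 := UnionCAux.pat_count cl hK hKK hrk henc' hT1 hT hq hq1 hR hN1 hok hV
        (show (patOf a m).m ≤ M from hm') hTT hU (sup_labH a) (patOf_vy a m)
      rw [← hQ, ← hD] at h2
      refine le_trans (Nat.mul_le_mul_right _ (card_le_card ?_)) h2
      intro ω0 hω0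
      exact mem_filter.2 ⟨mem_univ _, (mem_filter.1 hω0).2.2⟩
    · have h0 : E (m, a) = ∅ := by
        refine filter_eq_empty_iff.2 ?_
        intro ω0 _ h
        exact hg h.1
      rw [h0, card_empty, zero_mul]
      exact Nat.zero_le _
  have hScard : S.card ≤ (K' * Y.card *
          (Y.card * (Y.card * (M * ((t₀ + 1) * (w + 1))))) + 1) ^ (2 * M) := by
    have h1 := supp_card (J := Fin K' × {x // x ∈ Y}) (A := Att Y M t₀ w) (2 * M)
    have h2 : Fintype.card (Fin K' × {x // x ∈ Y}) = K' * Y.card := by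
      rw [Fintype.card_prod, Fintype.card_fin, Fintype.card_coe]
    have h3 : Fintype.card (Att Y M t₀ w) =
        Y.card * (Y.card * (M * ((t₀ + 1) * (w + 1)))) := by
      simp only [Att, Fintype.card_prod, Fintype.card_fin, Fintype.card_coe, Fintype.card_option]
    rw [h2, h3] at h1
    refine le_trans (le_of_eq ?_) h1
    congr 1
  calc B.card * q ^ ((s + 1) / 2)
      ≤ (∑ z ∈ range (M + 1) ×ˢ S, (E z).card) * q ^ ((s + 1) / 2) :=
        Nat.mul_le_mul_right _ ((card_le_card hsub).trans card_biUnion_le)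
    _ = ∑ z ∈ range (M + 1) ×ˢ S, (E z).card * q ^ ((s + 1) / 2) :=
        sum_mul _ _ _
    _ ≤ ∑ _z ∈ range (M + 1) ×ˢ S, D := sum_le_sum hE
    _ = (M + 1) * S.card * D := by
        rw [sum_const, card_product, card_range, smul_eq_mul]
    _ ≤ (M + 1) * (K' * Y.card *
          (Y.card * (Y.card * (M * ((t₀ + 1) * (w + 1))))) + 1) ^ (2 * M) * D :=
        Nat.mul_le_mul_right _ (Nat.mul_le_mul_left _ hScard)
    _ = _ := by rw [hD]; ring

end P28ng
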