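import Mathlib
import Pool.Agent.Lib.P28ng.UnionC
import Pool.Agent.Lib.P28ip.Stage

/-!
# Module P28ng.StageC : one stage for a family of functions (with classes)

PROOF.  As `P28ip.stage` (Stage.lean), with `bad_count_cls`; the set `Ω = {ω0 | ∀ x, cl (prd (ext K ω0) K x) = cl x}` is not empty (`ω0 = 1`).  If every `ω0 ∈ Ω` were bad for some
`i` then `|Ω| q^e ≤ ∑ i |Bad_i ∩ Ω| q^e ≤ S Zc |Ω|`, against `hnum`.
-/

set_option autoImplicit false

namespace P28ng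

open P28ip Finset

theorem StageCAux.prd_one {X : Type} (K : ℕ) :
    ∀ j, prd (ext K (fun _ : Fin K => (1 : Equiv.Perm X))) j = 1 := by
  intro j
  induction j with
  | zero => rfl
  | succ j ih =>
    change ext K (fun _ : Fin K => (1 : Equiv.Perm X)) j *
      prd (ext K (fun _ : Fin K => (1 : Equiv.Perm X))) j = 1
    rw [ih, mul_one]
    unfold P28ip.ext
    split_ifs <;> rfl

open scoped Classical in
theorem stage_cls {X C : Type} [Fintype X] [DecidableEq X] {w K K' t₀ s t T q R S : ℕ}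
    {Y : Finset X} (cl : X → C)
    (hK : K = K' * (w + 1)) (hK1 : 1 ≤ K') (hw : 2 * t₀ ≤ w) (hw0 : 1 ≤ w) (hs1 : 1 ≤ s)
    (ht : t₀ ≤ t) (hst : 2 * (s - 1) ≤ t) (hT1 : 1 ≤ T) (hT : 2 * (t₀ * (s - 1 + t₀)) ≤ T)
    (hq : ∀ x, q + t₀ * (s - 1 + t₀) ≤ (univ.filter fun y => y ∉ Y ∧ cl y = cl x).card)
    (hq1 : 1 ≤ q) (hR : Fintype.card X ≤ R * q) (hN1 : 1 ≤ Fintype.card X)
    (hnum : S * Zc K' Y.card t₀ s w T R < q ^ ((s + 1) / 2))
    (F : Fin S → (ℕ → Equiv.Perm X) → Bool) (hF : ∀ i, OneP K t₀ (F i)) :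
    ∃ γ : ℕ → Equiv.Perm X, γ 0 = 1 ∧ (∀ x, cl (γ K x) = cl x) ∧ ∀ i,
      CertP K' t (fun h : ℕ → Equiv.Perm {x // x ∈ Y} => F i (tht w γ (lif Y h))) := by
  classical
  obtain ⟨rk, hrk⟩ := exists_injective_nat (Finset (Arc X))
  obtain ⟨enc, henc⟩ : ∃ enc : Finset (Arc X) → Arc X → ℕ, ∀ κ e,
      enc κ e = if h : e ∈ κ then ((κ.equivFin ⟨e, h⟩ : Fin κ.card) : ℕ) else 0 :=
    ⟨_, fun _ _ => rfl⟩
  have hbad := fun i : Fin S => bad_count_cls (Y := Y) (KK := KKof K t₀ (F i)) (rk := rk)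
    (enc := enc) (T := T) (q := q) (R := R) cl hK hw hw0 hs1 (fun κ hκ => ⟨hκ.1, hκ.2.1⟩) hrk
    (fun κ hκ e he => by
      rw [henc, dif_pos he]
      exact lt_of_lt_of_le (Fin.is_lt _) hκ.1)
    (fun κ hκ e he e' he' hee => by
      rw [henc, henc, dif_pos he, dif_pos he'] at hee
      have h1 := κ.equivFin.injective (Fin.ext hee)
      exact congrArg Subtype.val h1)
    hT1 hT hq hq1 hR hN1
  suffices h : ∃ ω0 : Fin K → Equiv.Perm X, (∀ x, cl (prd (ext K ω0) K x) = cl x) ∧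
      ∀ i, ¬ Bad w K' s Y (KKof K t₀ (F i)) (prd (ext K ω0)) by
    obtain ⟨ω0, h1, h2⟩ := h
    exact ⟨prd (ext K ω0), rfl, h1, fun i => cert_of_not_bad hK ht hst (hF i) (h2 i)⟩
  by_contra hcon
  push Not at hcon
  obtain ⟨Ω, hΩ⟩ : ∃ Ω : Finset (Fin K → Equiv.Perm X),
      Ω = univ.filter fun ω0 : Fin K → Equiv.Perm X =>
        ∀ x, cl (prd (ext K ω0) K x) = cl x := ⟨_, rfl⟩
  have hpos : 0 < Ω.card := by
    rw [hΩ]
    refine card_pos.2 ⟨fun _ => 1, mem_filter.2 ⟨mem_univ _, fun x => ?_⟩⟩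
    rw [StageCAux.prd_one K K]
    rfl
  have hsub : Ω ⊆
      (univ : Finset (Fin S)).biUnion fun i => univ.filter fun ω0 : Fin K → Equiv.Perm X =>
        (∀ x, cl (prd (ext K ω0) K x) = cl x) ∧
          Bad w K' s Y (KKof K t₀ (F i)) (prd (ext K ω0)) := by
    intro ω0 h0
    rw [hΩ] at h0
    obtain ⟨i, hi⟩ := hcon ω0 (mem_filter.1 h0).2
    exact mem_biUnion.2 ⟨i, mem_univ _, mem_filter.2 ⟨mem_univ _, (mem_filter.1 h0).2, hi⟩⟩
  have h1 := (card_le_card hsub).trans card_biUnion_le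
  have h3 : (∑ i : Fin S, (univ.filter fun ω0 : Fin K → Equiv.Perm X =>
        (∀ x, cl (prd (ext K ω0) K x) = cl x) ∧
          Bad w K' s Y (KKof K t₀ (F i)) (prd (ext K ω0))).card) * q ^ ((s + 1) / 2) ≤
      S * (Zc K' Y.card t₀ s w T R * Ω.card) := by
    rw [sum_mul]
    refine (sum_le_sum fun i _ => hbad i).trans ?_
    rw [sum_const, card_univ, Fintype.card_fin, smul_eq_mul, hΩ]
  have h4 : q ^ ((s + 1) / 2) * Ω.card ≤ S * Zc K' Y.card t₀ s w T R * Ω.card := by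
    calc q ^ ((s + 1) / 2) * Ω.card = Ω.card * q ^ ((s + 1) / 2) := mul_comm _ _
      _ ≤ _ := Nat.mul_le_mul_right _ h1
      _ ≤ S * (Zc K' Y.card t₀ s w T R * Ω.card) := h3
      _ = S * Zc K' Y.card t₀ s w T R * Ω.card := by ring
  exact absurd (Nat.le_of_mul_le_mul_right h4 hpos) (not_le.2 hnum)

end P28ng
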