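import Mathlib
import Pool.Agent.Lib.P28ng.Defs
import Pool.Agent.Lib.P28cd.Comp

/-!
# Module P28ng.TopC : the last stage, composition of stages

PROOF of `top_fam`: `π z` = `Equiv.Perm.viaEmbedding` of the permutation `(ℓ, b) ↦ (ℓ, xor b (z ℓ))` of `Λ × Bool` along `ι` (`viaEmbedding_apply`,
`viaEmbedding_apply_of_notMem`), so `Fol ι cl z (prd (fun _ => π z) 1)`.  `val' g z = val g (fun _ => π z)`.  A certificate `κ` of `val g` at `fun _ => π z` (arcs of layer
`0`): let `K` be the set of the `ℓ` such that some arc of `κ` has source `ι (ℓ, b)`; `|K| ≤ |κ| ≤ t`, and if `z' = z` on `K` then `κ` holds in `fun _ => π z'`.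
Gates: `P28cd.isGate_comp` as in `P28ip.fam_step`.
PROOF of `fol_tht`: `prd (tht w γ (lif Y h)) K = γ K * prd (lif Y h) K'` (`prd_tht`, `γ 0 = 1`), `prd (lif Y h) K' = Equiv.Perm.ofSubtype (prd h K')` (`FamAux.prd_lif`);
so the class of the image of `x` is the class of `prd h K' x` for `x ∈ Y`, and `cl x` for `x ∉ Y` (see the proof of `P28ip.reach_comp`).
-/

set_option autoImplicit false

namespace P28ng

open P28ip Finset

namespace TopCAux

/-- exchange of the two names of the present arcs -/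
def flp {Λ : Type} (z : Λ → Bool) : Equiv.Perm (Λ × Bool) :=
  Function.Involutive.toPerm (fun a => (a.1, xor a.2 (z a.1))) (by
    rintro ⟨ℓ, b⟩
    simp)

theorem flp_apply {Λ : Type} (z : Λ → Bool) (ℓ : Λ) (b : Bool) :
    flp z (ℓ, b) = (ℓ, xor b (z ℓ)) := rfl

/-- the same on the positions -/
noncomputable def pz {X Λ : Type} {ι : Λ × Bool → X} (hι : Function.Injective ι) (z : Λ → Bool) :
    Equiv.Perm X := (flp z).viaEmbedding ⟨ι, hι⟩

theorem pz_name {X Λ : Type} {ι : Λ × Bool → X} (hι : Function.Injective ι) (z : Λ → Bool)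
    (a : Λ × Bool) : pz hι z (ι a) = ι (flp z a) :=
  Equiv.Perm.viaEmbedding_apply (flp z) ⟨ι, hι⟩ a

theorem pz_out {X Λ : Type} {ι : Λ × Bool → X} (hι : Function.Injective ι) (z : Λ → Bool)
    {x : X} (hx : ∀ a, ι a ≠ x) : pz hι z x = x := by
  apply Equiv.Perm.viaEmbedding_apply_of_notMem (flp z) ⟨ι, hι⟩ x
  rintro ⟨a, ha⟩
  exact hx a ha

theorem pz_congr {X Λ : Type} {ι : Λ × Bool → X} (hι : Function.Injective ι) {z z' : Λ → Bool}
    {x : X} (h : ∀ ℓ b, ι (ℓ, b) = x → z' ℓ = z ℓ) : pz hι z' x = pz hι z x := by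
  by_cases hx : ∃ a, ι a = x
  · obtain ⟨⟨ℓ, b⟩, rfl⟩ := hx
    rw [pz_name, pz_name, flp_apply, flp_apply, h ℓ b rfl]
  · push Not at hx
    rw [pz_out hι z' hx, pz_out hι z hx]

end TopCAux

open TopCAux

theorem top_fam {X V Λ : Type} [Fintype X] [DecidableEq X] {S t : ℕ}
    {ι : Λ × Bool → X} (hι : Function.Injective ι) {cl : X → Option V} {G : (Λ → Bool) → Bool}
    {level : Fin S → ℕ} {val : Fin S → (ℕ → Equiv.Perm X) → Bool} (hF : FamP 1 t level val)
    (out : Fin S) (hout : ∀ z ω, Fol ι cl z (prd ω 1) → val out ω = G z) :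
    ∃ val' : Fin S → (Λ → Bool) → Bool, P28cd.Fam t level val' ∧ ∀ z, val' out z = G z := by
  classical
  have hcert : ∀ f : (ℕ → Equiv.Perm X) → Bool, CertP 1 t f →
      P28cd.Cert t (fun z => f (fun _ => pz hι z)) := by
    intro f hf z
    obtain ⟨κ, h1, h2, h3, h4⟩ := hf (fun _ => pz hι z)
    let g : Arc X → Finset Λ := fun e =>
      if h : ∃ a, ι a = e.2.1 then {h.choose.1} else ∅
    refine ⟨κ.biUnion g, ?_, ?_⟩
    · refine Finset.card_biUnion_le.trans ((Finset.sum_le_card_nsmul κ _ 1 fun e _ => ?_).trans ?_)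
      · show (if h : ∃ a, ι a = e.2.1 then ({h.choose.1} : Finset Λ) else ∅).card ≤ 1
        split_ifs
        · simp
        · simp
      · simpa using h1
    · intro z' hz'
      apply h4
      intro e he
      show pz hι z' e.2.1 = e.2.2
      rw [← h3 e he]
      show pz hι z' e.2.1 = pz hι z e.2.1
      apply pz_congr
      intro ℓ b hb
      apply hz'
      rw [Finset.mem_biUnion]
      refine ⟨e, he, ?_⟩
      have hex : ∃ a, ι a = e.2.1 := ⟨_, hb⟩
      show ℓ ∈ (if h : ∃ a, ι a = e.2.1 then ({h.choose.1} : Finset Λ) else ∅)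
      rw [dif_pos hex, Finset.mem_singleton]
      have : hex.choose = (ℓ, b) := hι (hex.choose_spec.trans hb.symm)
      rw [this]
  refine ⟨fun g z => val g (fun _ => pz hι z), ⟨fun g hg => hcert _ (hF.1 g hg), fun g hg => ?_⟩,
    fun z => ?_⟩
  · obtain ⟨T, hT, hgate⟩ := hF.2 g hg
    refine ⟨_, ?_, P28cd.isGate_comp hgate (fun z : Λ → Bool => fun _ : ℕ => pz hι z)⟩
    rintro _ ⟨f, hf, rfl⟩
    rcases hT hf with hf | ⟨g', hg', rfl | rfl⟩
    · exact Or.inl (hcert f hf)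
    · exact Or.inr ⟨g', hg', Or.inl rfl⟩
    · exact Or.inr ⟨g', hg', Or.inr rfl⟩
  · apply hout
    have hp : prd (fun _ => pz hι z) 1 = pz hι z := by
      show pz hι z * 1 = _
      rw [mul_one]
    rw [hp]
    refine ⟨fun ℓ b => ?_, fun x hx => ?_⟩
    · rw [pz_name, flp_apply]
    · rw [pz_out hι z hx]

theorem fol_tht {X V Λ : Type} [Fintype X] [DecidableEq X] {w K K' : ℕ} {Y : Finset X}
    (hK : K = K' * (w + 1)) {ι : Λ × Bool → X} {cl : X → Option V} (hY : ∀ a, ι a ∈ Y)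
    {γ : ℕ → Equiv.Perm X} (h0 : γ 0 = 1) (hγ : ∀ x, cl (γ K x) = cl x) {z : Λ → Bool}
    {h : ℕ → Equiv.Perm {x // x ∈ Y}}
    (hf : Fol (fun a => (⟨ι a, hY a⟩ : {x // x ∈ Y})) (fun y => cl y) z (prd h K')) :
    Fol ι cl z (prd (tht w γ (lif Y h)) K) := by
  subst hK
  have key : ∀ x, cl (prd (tht w γ (lif Y h)) (K' * (w + 1)) x) = cl (prd (lif Y h) K' x) := by
    intro x
    rw [prd_tht, h0, inv_one, mul_one, Equiv.Perm.mul_apply]
    exact hγ _
  have hl : prd (lif Y h) K' = Equiv.Perm.ofSubtype (prd h K') := FamAux.prd_lif Y h K'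
  have hin : ∀ x (hx : x ∈ Y), prd (lif Y h) K' x = ((prd h K' ⟨x, hx⟩ : {x // x ∈ Y}) : X) := by
    intro x hx
    rw [hl]
    exact Equiv.Perm.ofSubtype_apply_of_mem _ hx
  constructor
  · intro ℓ b
    rw [key, hin _ (hY _)]
    exact hf.1 ℓ b
  · intro x hx
    rw [key]
    by_cases hxY : x ∈ Y
    · rw [hin x hxY]
      exact hf.2 ⟨x, hxY⟩ (fun a ha => hx a (congrArg Subtype.val ha))
    · rw [hl, Equiv.Perm.ofSubtype_apply_of_not_mem _ hxY]

end P28ng
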