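import Mathlib
import Pool.Agent.Lib.P28ng.StageC
import Pool.Agent.Lib.P28ng.NumC
import Pool.Agent.Lib.P28ng.TopC
import Pool.Agent.Lib.P28ng.NamC
import Pool.Agent.Lib.P28ip.Loop

/-!
# Module P28ng.LoopC : all stages
-/

set_option autoImplicit false

namespace P28ng

open P28ip Finset

theorem lyn_pos (t i : ℕ) : 1 ≤ lyn t i := by
  induction i with
  | zero => exact le_rfl
  | succ i ih =>
    simp only [lyn]
    exact Nat.one_le_iff_ne_zero.2 (Nat.mul_ne_zero (by omega) (by omega))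

theorem lyn_mono (t i : ℕ) : lyn t i ≤ lyn t (i + 1) := by
  simp only [lyn]
  exact Nat.le_mul_of_pos_right _ (by omega)

open scoped Classical in
/-- one stage for circuits -/
theorem stage_circ_cls {X V Λ : Type} [Fintype X] [DecidableEq X] [Fintype Λ] [Fintype V]
    {η e w K' t₀ t S : ℕ}
    (he : 1 ≤ e) (hη : 1000 ≤ η) (ht8 : 8 ≤ t) (ht0 : t₀ ≤ t) (hw2 : 2 * t₀ ≤ w) (hw1 : 1 ≤ w)
    (hK1 : 1 ≤ K') (hK' : K' ≤ η) (hwη : w + 1 ≤ η) (htη : t ≤ η) (hS : S ≤ η ^ t)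
    (hΛ : 2 * Fintype.card Λ ≤ η) (hV : Fintype.card V + 1 ≤ η)
    {ι : Λ × Bool → X} (hι : Function.Injective ι) {cl : X → Option V}
    (hN : ∀ c, (univ.filter fun y => (∀ a, ι a ≠ y) ∧ cl y = c).card = (η ^ e) ^ 1000)
    {G : (Λ → Bool) → Bool}
    {level : Fin S → ℕ} {val : Fin S → (ℕ → Equiv.Perm X) → Bool}
    (hF : FamP (K' * (w + 1)) t₀ level val) (out : Fin S)
    (hout : ∀ z ω, Fol ι cl z (prd ω (K' * (w + 1))) → val out ω = G z) :
    ∃ (Y : Finset X) (hY : ∀ a, ι a ∈ Y)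
      (val' : Fin S → (ℕ → Equiv.Perm {x // x ∈ Y}) → Bool),
      (∀ c, (univ.filter fun y : {x // x ∈ Y} =>
        (∀ a, (⟨ι a, hY a⟩ : {x // x ∈ Y}) ≠ y) ∧ cl y = c).card = η ^ e) ∧
      FamP K' t (fun g => level g - 1) val' ∧
      ∀ z ω, Fol (fun a => (⟨ι a, hY a⟩ : {x // x ∈ Y})) (fun y => cl y) z (prd ω K') →
        val' out ω = G z := by
  have hη1 : 1 ≤ η ^ e := Nat.one_le_pow _ _ (by omega)
  have hle : η ^ e ≤ (η ^ e) ^ 1000 := Nat.le_self_pow (by omega) _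
  obtain ⟨Y, hY, hY1, hY2, hYc⟩ := sub_names hι hle hN
  have hXc := card_names hι hN
  have hℓ : Y.card ≤ 2 * η ^ (e + 1) := by
    rw [hYc]
    have h1 : (Fintype.card V + 1) * η ^ e ≤ η * η ^ e := Nat.mul_le_mul_right _ hV
    have h2 : η ≤ η * η ^ e := Nat.le_mul_of_pos_right _ hη1
    rw [pow_succ]
    nlinarith
  obtain ⟨hT, hsz, hnum⟩ := num_stage_cls (w := w) (K' := K') (t₀ := t₀) he hη ht8 ht0 hK' htη hwη hS
    hℓ
  obtain ⟨F, hF1, hF2⟩ := one_part hF
  have hq : ∀ x, (η ^ e) ^ 999 + t₀ * (t / 2 + 1 - 1 + t₀) ≤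
      (univ.filter fun y => y ∉ Y ∧ cl y = cl x).card := by
    intro x
    have := hY2 (cl x)
    omega
  have hR : Fintype.card X ≤ (2 * η ^ (e + 1)) * (η ^ e) ^ 999 := by
    have h3 : (η ^ e) ^ 1000 = η ^ e * (η ^ e) ^ 999 := by
      rw [show (1000 : ℕ) = 999 + 1 by norm_num, pow_succ, mul_comm]
    have h4 : 1 ≤ (η ^ e) ^ 999 := Nat.one_le_pow _ _ hη1
    rw [hXc, h3]
    generalize (η ^ e) ^ 999 = q at *
    have h1 : (Fintype.card V + 1) * (η ^ e * q) ≤ η * (η ^ e * q) := Nat.mul_le_mul_right _ hV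
    have h2 : η ≤ η * (η ^ e * q) := Nat.le_mul_of_pos_right _ (Nat.mul_pos hη1 h4)
    rw [pow_succ]
    nlinarith
  have hX1 : 1 ≤ Fintype.card X := by
    rw [hXc]
    have : 1 ≤ (Fintype.card V + 1) * (η ^ e) ^ 1000 :=
      Nat.mul_pos (Nat.succ_pos _) (Nat.pow_pos hη1)
    omega
  obtain ⟨γ, hγ0, hγK, hγ⟩ := stage_cls (X := X) (w := w) (K := K' * (w + 1)) (K' := K') (t₀ := t₀)
    (s := t / 2 + 1) (t := t) (T := 4 * t ^ 2) (q := (η ^ e) ^ 999) (R := 2 * η ^ (e + 1)) (S := S)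
    (Y := Y) cl rfl hK1 hw2 hw1
    (by omega) ht0 (by omega) (by nlinarith) hT (by intro x; convert hq x)
    (Nat.one_le_pow _ _ hη1) hR hX1 hnum F hF1
  refine ⟨Y, hY, fun g h => val g (tht w γ (lif Y h)), ?_, ?_, ?_⟩
  · intro c
    convert hY1 c
  · refine fam_step rfl ht0 hF γ ?_
    intro g hg
    rcases hF2 g hg with h | h
    · rw [← h]; exact hγ g
    · have := certP_not (hγ g)
      rw [h] at this
      simpa using this
  · intro z ω hf
    exact hout z _ (fol_tht rfl hY hγ0 hγK hf)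

open scoped Classical in
/-- `i` stages -/
theorem reduce_cls {V Λ : Type} [Fintype Λ] [Fintype V] (G : (Λ → Bool) → Bool) {η t S : ℕ}
    (hη : 1000 ≤ η) (ht8 : 8 ≤ t) (hS : S ≤ η ^ t) (hΛ : 2 * Fintype.card Λ ≤ η)
    (hV : Fintype.card V + 1 ≤ η) (out : Fin S) (i : ℕ) :
    ∀ {X : Type} [Fintype X] [DecidableEq X] (_ : lyn t i * 3 ≤ η) (_ : 2 * t + 1 ≤ η)
    {ι : Λ × Bool → X} (_ : Function.Injective ι) {cl : X → Option V}
    (_ : ∀ c, (univ.filter fun y => (∀ a, ι a ≠ y) ∧ cl y = c).card = η ^ ee i)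
    {level : Fin S → ℕ} {val : Fin S → (ℕ → Equiv.Perm X) → Bool}
    (_ : FamP (lyn t i) t level val)
    (_ : ∀ z ω, Fol ι cl z (prd ω (lyn t i)) → val out ω = G z),
    ∃ val' : Fin S → (Λ → Bool) → Bool, P28cd.Fam t (fun g => level g - i) val' ∧
      ∀ z, val' out z = G z := by
  induction i with
  | zero =>
    intro X _ _ _ _ ι hι cl _ level val hF hout
    exact top_fam hι hF out hout
  | succ i ih =>
    intro X _ _ hlay htη ι hι cl hN level val hF hout
    have h1 : 1 ≤ lyn t i := lyn_pos t i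
    have h3 := lyn_mono t i
    obtain ⟨Y, hY, val', hY1, hF', hout'⟩ := stage_circ_cls (X := X) (η := η) (e := ee i)
      (w := 2 * t) (K' := lyn t i) (t₀ := t) (t := t) (S := S) (ee_pos i) hη ht8 le_rfl le_rfl
      (by omega) h1 (by omega) (by omega) (by omega) hS hΛ hV hι
      (by intro c; rw [hN c]; simp only [ee]; rw [pow_mul]) hF out hout
    obtain ⟨v, hv1, hv2⟩ := ih (X := {x // x ∈ Y}) (by omega) htη
      (ι := fun a => (⟨ι a, hY a⟩ : {x // x ∈ Y}))
      (fun a b hab => hι (congrArg Subtype.val hab)) (cl := fun y => cl y)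
      (by intro c; convert hY1 c) hF' hout'
    refine ⟨v, ?_, hv2⟩
    have he : (fun g => level g - 1 - i) = fun g => level g - (i + 1) := by
      funext g
      omega
    rw [← he]
    exact hv1

open scoped Classical in
/-- all stages for circuits over the literals -/
theorem reduce_lit {V Λ : Type} [Fintype Λ] [Fintype V] (G : (Λ → Bool) → Bool) {η t S : ℕ}
    (hη : 1000 ≤ η) (ht8 : 8 ≤ t) (hS : S ≤ η ^ t) (hΛ : 2 * Fintype.card Λ ≤ η)
    (hV : Fintype.card V + 1 ≤ η) (out : Fin S) (i : ℕ)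
    {X : Type} [Fintype X] [DecidableEq X] (hlay : lyn t i * 3 ≤ η) (htη : 2 * t + 1 ≤ η)
    {ι : Λ × Bool → X} (hι : Function.Injective ι) {cl : X → Option V}
    (hN : ∀ c, (univ.filter fun y => (∀ a, ι a ≠ y) ∧ cl y = c).card = η ^ ee (i + 1))
    {level : Fin S → ℕ} {val : Fin S → (ℕ → Equiv.Perm X) → Bool}
    (hF : ∀ g, ∃ T ⊆ P28cd.Avail {f | CertP (lyn t i * 3) 1 f} level val (level g),
      P28cd.IsGate T (val g))
    (hout : ∀ z ω, Fol ι cl z (prd ω (lyn t i * 3)) → val out ω = G z) :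
    ∃ val' : Fin S → (Λ → Bool) → Bool, P28cd.Fam t (fun g => level g - i) val' ∧
      ∀ z, val' out z = G z := by
  have hF1 : FamP (lyn t i * (2 + 1)) 1 (fun g => level g + 1) val := by
    refine ⟨fun g hg => absurd hg (by simp), fun g _ => ?_⟩
    obtain ⟨T, hT, hG⟩ := hF g
    refine ⟨T, ?_, hG⟩
    intro f hf
    rcases hT hf with h | ⟨g', h1, h2⟩
    · exact Or.inl h
    · exact Or.inr ⟨g', by simpa using h1, h2⟩
  have h1 : 1 ≤ lyn t i := lyn_pos t i
  obtain ⟨Y, hY, val', hY1, hF', hout'⟩ := stage_circ_cls (X := X) (η := η) (e := ee i)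
    (w := 2) (K' := lyn t i) (t₀ := 1) (t := t) (S := S) (ee_pos i) hη ht8 (by omega) (by omega)
    (by omega) h1 (by omega) (by omega) (by omega) hS hΛ hV hι
    (by intro c; rw [hN c]; simp only [ee]; rw [pow_mul]) hF1 out hout
  exact reduce_cls G hη ht8 hS hΛ hV out i (X := {x // x ∈ Y}) hlay htη
      (ι := fun a => (⟨ι a, hY a⟩ : {x // x ∈ Y}))
      (fun a b hab => hι (congrArg Subtype.val hab)) (cl := fun y => cl y)
      (by intro c; convert hY1 c) (level := level) (val := val') (by simpa using hF') hout'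

end P28ng
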