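import Mathlib
import Pool.Agent.Lib.P28ng.LoopC
import Pool.Agent.Lib.P28ng.GraC
import Pool.Agent.Lib.P28ng.FinNumC
import Pool.Agent.Lib.P28cd.Top3
import Pool.Agent.Lib.P28cd.Und
import Pool.Agent.Lib.P28ip.Fin

/-!
# Module P28ng.FinC : the lower bound for undirected graphs
-/

set_option autoImplicit false

namespace P28ng

open P28ip Finset

/-- the positions: the names and `N` more of every class -/
abbrev XX (Λ V : Type) (N : ℕ) : Type := (Λ × Bool) ⊕ (Option V × Fin N)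

/-- the classes -/
def clX {Λ V : Type} (ds : Λ → V) (N : ℕ) : XX Λ V N → Option V
  | Sum.inl (ℓ, b) => if b then some (ds ℓ) else none
  | Sum.inr (c, _) => c

open scoped Classical in
theorem clX_card {Λ V : Type} [Fintype Λ] [Fintype V] (ds : Λ → V) (N : ℕ) (c : Option V) :
    (univ.filter fun y : XX Λ V N => (∀ a, (Sum.inl a : XX Λ V N) ≠ y) ∧
      clX ds N y = c).card = N := by
  have h : (univ.filter fun y : XX Λ V N => (∀ a, (Sum.inl a : XX Λ V N) ≠ y) ∧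
      clX ds N y = c) = (univ : Finset (Fin N)).image fun i => (Sum.inr (c, i) : XX Λ V N) := by
    ext y
    rw [mem_filter, mem_image]
    constructor
    · rintro ⟨-, h1, h2⟩
      rcases y with a | ⟨c', i⟩
      · exact absurd rfl (h1 a)
      · exact ⟨i, mem_univ _, by rw [← h2]; rfl⟩
    · rintro ⟨i, -, rfl⟩
      exact ⟨mem_univ _, fun a h => Sum.inl_ne_inr h, rfl⟩
  rw [h, card_image_of_injective, card_univ, Fintype.card_fin]
  intro i j hij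
  have := Sum.inr_injective hij
  exact (Prod.ext_iff.1 this).2

/-- circuits of depth `d ≥ 3` need `n ^ (c min (k ^ (1 / (d - 2)), n ^ c))` gates -/
theorem lower_gen (D : ℕ) : ∃ c : ℝ, 0 < c ∧ ∃ k₀ n₀ : ℕ,
    ∀ n ≥ n₀, ∀ k ≥ k₀, ∀ s t : Fin n, s ≠ t →
    ∀ (S : ℕ) (f : (Fin n → Fin n → Bool) → Bool), P28cd.Circ (P28cd.Lits n) (D + 3) S f →
      (∀ E, (∀ v, E v v = false) → (∀ v w, E v w = E w v) →
        (P28cd.Walk E k s t → f E = true) ∧ ((∀ j, ¬ P28cd.Walk E j s t) → f E = false)) →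
      (n : ℝ) ^ (c * min ((k : ℝ) ^ (1 / ((D : ℝ) + 1))) ((n : ℝ) ^ c)) ≤ S := by
  classical
  obtain ⟨c, hc, k₀, n₀, hnum⟩ := final_numbers_ng D
  refine ⟨c, hc, k₀, n₀, ?_⟩
  intro n hn k hk s t hst S f hf hor
  by_contra hlt
  push Not at hlt
  obtain ⟨μ, t', ht, hμ, hlay, hlk, hcard, hpow⟩ := hnum n hn k hk
  have hS : S ≤ μ ^ (7 * t') := by
    have : (S : ℝ) < ((μ ^ (7 * t') : ℕ) : ℝ) := lt_trans hlt hpow
    exact (Nat.cast_lt.1 this).le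
  obtain ⟨hn1, hn2, hn3, hn4, hn5⟩ := top_numbers ht hμ hS
  have hu1 : 1 ≤ 8 * t' := by omega
  have hm1 : 1 ≤ μ ^ 2 := Nat.one_le_pow _ _ (by omega)
  have hg : Fintype.card (P28cd.Grp (8 * t') [μ ^ 2]) = μ ^ 2 * (8 * t') := by
    rw [P28cd.card_grp_succ, Fintype.card_prod, Fintype.card_fin]
    have : Fintype.card (P28cd.Grp (8 * t') []) = 1 := rfl
    rw [this, one_mul]
  have hΛ : Fintype.card (P28cd.Leaf (8 * t') (μ ^ 4) [μ ^ 2]) = μ ^ 2 * (8 * t') * μ ^ 4 := by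
    rw [Fintype.card_prod, Fintype.card_fin, hg]
  have hV := P28cd.card_vert (8 * t') hu1 [μ ^ 2] (by
    intro m hm
    rw [List.mem_singleton.1 hm]
    exact hm1)
  rw [hg] at hV
  have hμ7 : 1000 ≤ μ ^ 7 := le_trans (by omega : 1000 ≤ μ * 2) (by
    have h2 : 2 ≤ μ := by omega
    calc μ * 2 ≤ μ * μ := Nat.mul_le_mul_left _ h2
      _ = μ ^ 2 := by ring
      _ ≤ μ ^ 7 := Nat.pow_le_pow_right (by omega) (by norm_num))
  have hμle : μ ≤ μ ^ 7 := Nat.le_self_pow (by norm_num) _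
  have h2Λ : 2 * Fintype.card (P28cd.Leaf (8 * t') (μ ^ 4) [μ ^ 2]) ≤ μ ^ 7 := by
    rw [hΛ]; exact hn4
  have hV1 : Fintype.card (P28cd.Vert (8 * t') [μ ^ 2]) + 1 ≤ μ ^ 7 := by omega
  -- the positions
  let ds : P28cd.Leaf (8 * t') (μ ^ 4) [μ ^ 2] → P28cd.Vert (8 * t') [μ ^ 2] := fun ℓ =>
    P28cd.dstG (8 * t') [μ ^ 2] ℓ.1
  let sr : P28cd.Leaf (8 * t') (μ ^ 4) [μ ^ 2] → P28cd.Vert (8 * t') [μ ^ 2] := fun ℓ =>
    P28cd.srcG (8 * t') [μ ^ 2] ℓ.1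
  let N : ℕ := (μ ^ 7) ^ ee (D + 1)
  have hcN := fun c' => clX_card ds N c'
  have hXc := card_names (ι := fun a => (Sum.inl a : XX _ (P28cd.Vert (8 * t') [μ ^ 2]) N))
    Sum.inl_injective (cl := clX ds N) (N := N) (by intro c'; convert hcN c')
  have hK1 : 1 ≤ lyn t' D * 3 := by
    have := lyn_pos t' D
    omega
  have hsz := size_numbers (e := ee (D + 1)) (L := lyn t' D * 3) ht hμ hlay
    (a := Fintype.card (P28cd.Leaf (8 * t') (μ ^ 4) [μ ^ 2]))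
    (b := Fintype.card (P28cd.Vert (8 * t') [μ ^ 2])) h2Λ hV1
  have hst₀ : P28cd.vs (8 * t') [μ ^ 2] ≠ P28cd.vt (8 * t') [μ ^ 2] := by
    intro h
    have h1 := P28cd.lay_vs (8 * t') [μ ^ 2]
    rw [h, P28cd.lay_vt] at h1
    have h2 : 1 ≤ (8 * t') ^ [μ ^ 2].length := Nat.one_le_pow _ _ (by omega)
    omega
  obtain ⟨Es, hE1, hE2, hE3, hE4, hE5⟩ := graph_cls (n := n) (K := lyn t' D * 3) hK1 (sr := sr)
    (ds := ds) (ι := fun a => (Sum.inl a : XX _ (P28cd.Vert (8 * t') [μ ^ 2]) N))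
    Sum.inl_injective (cl := clX ds N) (fun ℓ => rfl) (fun ℓ => rfl)
    (by rw [hXc]; exact hsz.trans hcard) s t hst
    (P28cd.vs (8 * t') [μ ^ 2]) (P28cd.vt (8 * t') [μ ^ 2]) hst₀
  obtain ⟨level, val, out, hlev, hgate, rfl⟩ := hf
  obtain ⟨val', hv1, hv2⟩ := reduce_lit (P28cd.Fo (8 * t') [μ ^ 2] (μ ^ 4)) (η := μ ^ 7) (t := t')
    (S := S) hμ7 ht (by rw [← pow_mul]; exact hS) h2Λ hV1 out D (by omega) (by omega)
    (X := XX _ (P28cd.Vert (8 * t') [μ ^ 2]) N)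
    (ι := fun a => (Sum.inl a : XX _ (P28cd.Vert (8 * t') [μ ^ 2]) N)) Sum.inl_injective
    (cl := clX ds N) (by intro c'; convert hcN c') (level := level)
    (val := fun g ω => val g (Es ω)) (comp_conf hgate Es hE1) (by
      intro z ω hf
      have hEs := hor (Es ω) (hE2 ω) (hE3 ω)
      show val out (Es ω) = _
      cases hz : P28cd.Fo (8 * t') [μ ^ 2] (μ ^ 4) z with
      | true =>
        obtain ⟨p, hp0, hp1, hp⟩ := P28cd.path_of_true (8 * t') hu1 [μ ^ 2] (μ ^ 4) z hz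
        refine hEs.1 (walk_mono ?_ (hE4 z ω ((8 * t') ^ [μ ^ 2].length) hf ⟨p, hp0, hp1, ?_⟩))
        · simpa using hlk
        · intro i hi
          obtain ⟨γ, ⟨j, hj⟩, h1, h2⟩ := hp i hi
          exact ⟨(γ, j), hj, h1, h2⟩
      | false =>
        obtain ⟨φ, h0, h1, hφ⟩ := P28cd.cut_sym (8 * t') hu1 [μ ^ 2] (μ ^ 4) z hz
        exact hEs.2 (hE5 z ω hf ⟨φ, h0, h1, fun ℓ hℓ => hφ ℓ.1 ⟨ℓ.2, hℓ⟩⟩))
  exact P28cd.no_three_levels (u := 8 * t') (m := μ ^ 2) (M := μ ^ 4) (t := t') (S := S)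
    (by omega) (by omega) hn3 hn1 hn2 _ _ hv1
    (by intro g; have := hlev g; omega) out hv2

end P28ng
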