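import Mathlib

/-!
# Module P28ng.SepC : numbers for the separation

PROOF.  `x = k ^ (1/(d-1))`, `y = k ^ (1/(d-2)) = x ^ ((d-1)/(d-2)) ≥ x ^ (1 + 1/d)`.  With `c = c'`: `k ≤ n ^ c'` gives `y ≤ k ≤ n ^ c'` (`k ≥ 1`, `1/(d-2) ≤ 1`), so the minimum is
`y`.  For `k ≥ k₀` `y / x = k ^ (1/((d-1)(d-2))) ≥ (5 A + 1) / c'`, `x ≥ 1`, so `c' y ≥ (5 A + 1) x ≥ A (x + 4) + 1`.  Hence `S₀ ^ A ≤ n ^ (A (x + 4)) < n ^ (c' y) ≤ S` for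
`n ≥ 2`.  (`Real.rpow_natCast`, `Real.rpow_mul`, `Real.rpow_lt_rpow_of_exponent_lt`; `k₀` = a natural number `≥ ((5 A + 1)/c') ^ ((d-1)(d-2))` and `≥ 1`; exponents with
real numbers `(d : ℝ) - 1 > 1`.)
-/

set_option autoImplicit false

namespace P28ng

theorem sep_numbers_full (d : ℕ) (hd : 3 ≤ d) (A : ℕ) (c' : ℝ) (hc' : 0 < c') :
    ∃ c : ℝ, 0 < c ∧ ∃ k₀ n₀ : ℕ, ∀ n ≥ n₀, ∀ k ≥ k₀, (k : ℝ) ≤ (n : ℝ) ^ c →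
      ∀ S₀ S : ℕ, (S₀ : ℝ) ≤ (n : ℝ) ^ ((k : ℝ) ^ (1 / ((d : ℝ) - 1)) + 4) →
        (n : ℝ) ^ (c' * min ((k : ℝ) ^ (1 / ((d : ℝ) - 2))) ((n : ℝ) ^ c')) ≤ S →
          S₀ ^ A < S := by
  have hd3 : (3 : ℝ) ≤ (d : ℝ) := by exact_mod_cast hd
  have h1 : (0 : ℝ) < (d : ℝ) - 1 := by linarith
  have h2 : (0 : ℝ) < (d : ℝ) - 2 := by linarith
  have hab : (0 : ℝ) < 1 / ((d : ℝ) - 2) - 1 / ((d : ℝ) - 1) := by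
    have : 1 / ((d : ℝ) - 1) < 1 / ((d : ℝ) - 2) :=
      one_div_lt_one_div_of_lt h2 (by linarith)
    linarith
  have hb1 : 1 / ((d : ℝ) - 2) ≤ 1 := by
    rw [div_le_one h2]
    linarith
  have ha0 : (0 : ℝ) < 1 / ((d : ℝ) - 1) := by positivity
  have hT : Filter.Tendsto
      (fun k : ℕ => ((k : ℝ)) ^ (1 / ((d : ℝ) - 2) - 1 / ((d : ℝ) - 1)))
      Filter.atTop Filter.atTop :=
    (tendsto_rpow_atTop hab).comp tendsto_natCast_atTop_atTop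
  obtain ⟨k₀, hk₀⟩ := Filter.eventually_atTop.mp
    (hT.eventually_ge_atTop ((5 * (A : ℝ) + 1) / c'))
  refine ⟨c', hc', max k₀ 1, 2, ?_⟩
  intro n hn k hk hkn S₀ S hS₀ hS
  have hk1 : k₀ ≤ k := le_trans (le_max_left _ _) hk
  have hk2 : 1 ≤ k := le_trans (le_max_right _ _) hk
  have hkR : (1 : ℝ) ≤ (k : ℝ) := by exact_mod_cast hk2
  have hk0 : (0 : ℝ) < (k : ℝ) := by linarith
  have hn2 : (2 : ℝ) ≤ (n : ℝ) := by exact_mod_cast hn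
  have hn1 : (1 : ℝ) < (n : ℝ) := by linarith
  have hn0 : (0 : ℝ) < (n : ℝ) := by linarith
  have hx1 : (1 : ℝ) ≤ (k : ℝ) ^ (1 / ((d : ℝ) - 1)) := Real.one_le_rpow hkR ha0.le
  have hyk : (k : ℝ) ^ (1 / ((d : ℝ) - 2)) ≤ (n : ℝ) ^ c' := by
    calc (k : ℝ) ^ (1 / ((d : ℝ) - 2)) ≤ (k : ℝ) ^ (1 : ℝ) :=
          Real.rpow_le_rpow_of_exponent_le hkR hb1
      _ = (k : ℝ) := Real.rpow_one _
      _ ≤ (n : ℝ) ^ c' := hkn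
  rw [min_eq_left hyk] at hS
  have hg := hk₀ k hk1
  have hyx : (k : ℝ) ^ (1 / ((d : ℝ) - 2)) =
      (k : ℝ) ^ (1 / ((d : ℝ) - 2) - 1 / ((d : ℝ) - 1)) * (k : ℝ) ^ (1 / ((d : ℝ) - 1)) := by
    rw [← Real.rpow_add hk0]
    congr 1
    ring
  have hcy : (5 * (A : ℝ) + 1) * (k : ℝ) ^ (1 / ((d : ℝ) - 1)) ≤
      c' * (k : ℝ) ^ (1 / ((d : ℝ) - 2)) := by
    have hg' : 5 * (A : ℝ) + 1 ≤ c' * (k : ℝ) ^ (1 / ((d : ℝ) - 2) - 1 / ((d : ℝ) - 1)) := by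
      rw [div_le_iff₀ hc'] at hg
      linarith [mul_comm c' ((k : ℝ) ^ (1 / ((d : ℝ) - 2) - 1 / ((d : ℝ) - 1)))]
    rw [hyx, ← mul_assoc]
    exact mul_le_mul_of_nonneg_right hg' (by linarith)
  have hA : (0 : ℝ) ≤ (A : ℝ) := Nat.cast_nonneg A
  have hexp : ((k : ℝ) ^ (1 / ((d : ℝ) - 1)) + 4) * (A : ℝ) <
      c' * (k : ℝ) ^ (1 / ((d : ℝ) - 2)) := by
    nlinarith [mul_le_mul_of_nonneg_left hx1 hA]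
  have hfin : ((S₀ ^ A : ℕ) : ℝ) < (S : ℝ) := by
    calc ((S₀ ^ A : ℕ) : ℝ) = (S₀ : ℝ) ^ A := by push_cast; ring
      _ ≤ ((n : ℝ) ^ ((k : ℝ) ^ (1 / ((d : ℝ) - 1)) + 4)) ^ A :=
          pow_le_pow_left₀ (Nat.cast_nonneg S₀) hS₀ A
      _ = (n : ℝ) ^ (((k : ℝ) ^ (1 / ((d : ℝ) - 1)) + 4) * (A : ℝ)) := by
          rw [Real.rpow_mul hn0.le, Real.rpow_natCast]
      _ < (n : ℝ) ^ (c' * (k : ℝ) ^ (1 / ((d : ℝ) - 2))) :=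
          Real.rpow_lt_rpow_of_exponent_lt hn1 hexp
      _ ≤ (S : ℝ) := hS
  exact_mod_cast hfin

end P28ng
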